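import Mathlib

set_option autoImplicit false

/-!
# Clique-width, twin-width and symmetric difference: definitions
-/

namespace Pool.Agent.Helper91_TW

open Finset

/-- The colouring of the edges of the complete graph on `V` with colour classes `G` (red) and `Gᶜ`
(blue) has no monochromatic `K_k`. -/
def NoMono {V : Type} (G : SimpleGraph V) (k : ℕ) : Prop :=
  G.CliqueFree k ∧ Gᶜ.CliqueFree k

/-- The vertex `w`, different from `u` and `v`, is adjacent to exactly one of `u` and `v`. -/
def Distinguishes {V : Type} (G : SimpleGraph V) (u v w : V) : Prop :=
  w ≠ u ∧ w ≠ v ∧ ¬ (G.Adj u w ↔ G.Adj v w)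

open Classical in
/-- Symmetric difference at most `t`: every induced subgraph with at least two vertices contains
two vertices which are distinguished by at most `t` of its vertices. -/
def SymDiffLe {V : Type} (G : SimpleGraph V) (t : ℕ) : Prop :=
  ∀ S : Finset V, 2 ≤ S.card → ∃ u ∈ S, ∃ v ∈ S, u ≠ v ∧
    (S.filter (fun w => Distinguishes G u v w)).card ≤ t

/-- The pair `A`, `B` of vertex sets is homogeneous: completely joined or not joined at all. -/
def Homog {V : Type} (G : SimpleGraph V) (A B : Finset V) : Prop :=
  (∀ a ∈ A, ∀ b ∈ B, G.Adj a b) ∨ (∀ a ∈ A, ∀ b ∈ B, ¬ G.Adj a b)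

open Classical in
/-- Every part of the partition `P` of the vertices has at most `t` red neighbours: other parts
with which it is not homogeneous. -/
def RedDegLe {V : Type} (G : SimpleGraph V) (t : ℕ) (P : Finset (Finset V)) : Prop :=
  ∀ A ∈ P, (P.filter (fun B => B ≠ A ∧ ¬ Homog G A B)).card ≤ t

/-- The partitions of the vertices which can be reached from the partition into single vertices by
successive contractions (unions of two parts), the red degrees being at most `t` all the time. -/
inductive Contractible {V : Type} [Fintype V] [DecidableEq V] (G : SimpleGraph V) (t : ℕ) :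
    Finset (Finset V) → Prop
  | start : Contractible G t (univ.image (fun v => {v}))
  | step (P : Finset (Finset V)) (A B : Finset V) : Contractible G t P → A ∈ P → B ∈ P → A ≠ B →
      RedDegLe G t (insert (A ∪ B) ((P.erase A).erase B)) →
      Contractible G t (insert (A ∪ B) ((P.erase A).erase B))

/-- The twin-width of the (nonempty) graph `G` is at most `t`: there is a sequence of contractions
that ends with one part. -/
def TwinWidthLe {V : Type} [Fintype V] [DecidableEq V] (G : SimpleGraph V) (t : ℕ) : Prop :=
  Contractible G t {univ}

/-- The graphs on the vertex set `S`, with edge relation `E` and labelling `l` of the vertices by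
`w` labels, which can be constructed by: creation of a vertex with a label; disjoint union; joining
all vertices with label `i` to all vertices with label `j ≠ i`; relabelling of all vertices with
label `i` by `j`. (In `same` the labels of the vertices outside `S` are changed.) -/
inductive CwBuilt {V : Type} [DecidableEq V] (w : ℕ) :
    Finset V → (V → V → Prop) → (V → Fin w) → Prop
  | vertex (v : V) (l : V → Fin w) : CwBuilt w {v} (fun _ _ => False) l
  | union (S T : Finset V) (E F : V → V → Prop) (l : V → Fin w) : Disjoint S T →
      CwBuilt w S E l → CwBuilt w T F l → CwBuilt w (S ∪ T) (fun x y => E x y ∨ F x y) l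
  | join (S : Finset V) (E : V → V → Prop) (l : V → Fin w) (i j : Fin w) : i ≠ j →
      CwBuilt w S E l →
      CwBuilt w S (fun x y => E x y ∨
        (x ∈ S ∧ y ∈ S ∧ ((l x = i ∧ l y = j) ∨ (l x = j ∧ l y = i)))) l
  | relabel (S : Finset V) (E : V → V → Prop) (l : V → Fin w) (i j : Fin w) :
      CwBuilt w S E l → CwBuilt w S E (fun x => if l x = i then j else l x)
  | same (S : Finset V) (E : V → V → Prop) (l l' : V → Fin w) :
      (∀ x ∈ S, l x = l' x) → CwBuilt w S E l → CwBuilt w S E l'

/-- The clique-width of the (nonempty) graph `G` is at most `w`. -/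
def CliqueWidthLe {V : Type} [Fintype V] [DecidableEq V] (G : SimpleGraph V) (w : ℕ) : Prop :=
  ∃ (E : V → V → Prop) (l : V → Fin w), CwBuilt w univ E l ∧ ∀ x y, E x y ↔ G.Adj x y

end Pool.Agent.Helper91_TW
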