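import Mathlib
import Pool.Agent.Helper91_TW.Defs

set_option autoImplicit false

/-!
# Homogeneous pairs in graphs of small symmetric difference
-/

namespace Pool.Agent.Helper91_TW

open Finset

variable {V : Type} [DecidableEq V]

/-- clusters of near twins, see `pair_symDiff` -/
structure St (G : SimpleGraph V) (S : Finset V) (s t : ℕ) (R : Finset V) (cl : V → Finset V)
    (Bad : Finset (V × V)) (f N : ℕ) : Prop where
  root : ∀ r ∈ R, r ∈ cl r
  sub : ∀ r ∈ R, cl r ⊆ S
  disj : ∀ r ∈ R, ∀ r' ∈ R, r ≠ r' → Disjoint (cl r) (cl r')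
  small : ∀ r ∈ R, (cl r).card < s
  good : ∀ r ∈ R, ∀ r' ∈ R, r ≠ r' → ∀ a ∈ cl r, ∀ b ∈ cl r', (a, b) ∉ Bad →
    (G.Adj a b ↔ G.Adj r r')
  cover : S.card ≤ (∑ r ∈ R, (cl r).card) + 2 * s * f
  count : (8 * t * s ^ 3 + 1) * f + Bad.card ≤ N * (2 * t * s ^ 2)
  steps : N + R.card ≤ S.card

open Classical in
theorem pair_aux (G : SimpleGraph V) {t s : ℕ} (hG : SymDiffLe G t) (S : Finset V)
    (hS : 8 * s ≤ S.card) (hs : 0 < s)
    (hng : ∀ C T : Finset V, C ⊆ S → T ⊆ S → Disjoint C T → s ≤ C.card → C.card ≤ 2 * s →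
      S.card ≤ 4 * T.card →
      8 * t * s ^ 3 < (T.filter (fun b => ¬ Homog G C {b})).card) :
    ∀ (n : ℕ) (R : Finset V) (cl : V → Finset V) (Bad : Finset (V × V)) (f N : ℕ),
      R.card = n → St G S s t R cl Bad f N → False := by
  classical
  intro n
  induction n using Nat.strong_induction_on with
  | _ n ih =>
  intro R cl Bad f N hRn hst
  by_cases hact : 2 * (∑ r ∈ R, (cl r).card) ≤ S.card
  · have h1 : S.card ≤ 4 * s * f := by
      have := hst.cover
      nlinarith
    have h2 := hst.count
    have h3 : N ≤ S.card := by have := hst.steps; omega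
    have h4 : N * (2 * t * s ^ 2) ≤ (4 * s * f) * (2 * t * s ^ 2) :=
      Nat.mul_le_mul_right _ (h3.trans h1)
    have h5 : (4 * s * f) * (2 * t * s ^ 2) = 8 * t * s ^ 3 * f := by ring
    have h6 : (8 * t * s ^ 3 + 1) * f = 8 * t * s ^ 3 * f + f := by ring
    have h7 : f = 0 := by omega
    rw [h7] at h1
    omega
  push Not at hact
  have hR2 : 2 ≤ R.card := by
    by_contra hlt
    have hle : R.card ≤ 1 := by omega
    rcases Nat.le_one_iff_eq_zero_or_eq_one.1 hle with h0 | h1
    · rw [Finset.card_eq_zero] at h0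
      subst h0
      simp at hact
    · rw [Finset.card_eq_one] at h1
      obtain ⟨r, hr⟩ := h1
      subst hr
      have := hst.small r (mem_singleton_self r)
      rw [sum_singleton] at hact
      omega
  obtain ⟨u, hu, v, hv, huv, hX⟩ := hG R hR2
  set X := R.filter (fun w => Distinguishes G u v w) with hXdef
  set C := cl u ∪ cl v with hC
  set U := X.biUnion cl with hU
  set Bad' := Bad ∪ (cl u ×ˢ U) ∪ (U ×ˢ cl u) with hBad'
  have hUcard : U.card ≤ t * s := by
    calc U.card ≤ ∑ w ∈ X, (cl w).card := card_biUnion_le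
      _ ≤ ∑ w ∈ X, s := sum_le_sum (fun w hw => (hst.small w (mem_filter.1 hw).1).le)
      _ = X.card * s := by rw [sum_const, smul_eq_mul]
      _ ≤ t * s := Nat.mul_le_mul_right _ hX
  have hclu : (cl u).card ≤ s := (hst.small u hu).le
  have hBcard : Bad'.card ≤ Bad.card + 2 * t * s ^ 2 := by
    calc Bad'.card ≤ (Bad ∪ (cl u ×ˢ U)).card + (U ×ˢ cl u).card := card_union_le _ _
      _ ≤ Bad.card + (cl u ×ˢ U).card + (U ×ˢ cl u).card :=
          Nat.add_le_add_right (card_union_le _ _) _
      _ = Bad.card + (cl u).card * U.card + U.card * (cl u).card := by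
          rw [card_product, card_product]
      _ ≤ Bad.card + s * (t * s) + (t * s) * s := by
          gcongr
      _ = Bad.card + 2 * t * s ^ 2 := by ring
  have hCcard : C.card < 2 * s := by
    have h1 := card_union_le (cl u) (cl v)
    have h2 := hst.small u hu
    have h3 := hst.small v hv
    rw [hC]; omega
  have hCdisj : Disjoint (cl u) (cl v) := hst.disj u hu v hv huv
  have hCc : C.card = (cl u).card + (cl v).card := card_union_of_disjoint hCdisj
  -- adjacency of the members of `C`
  have key : ∀ r ∈ R, r ≠ u → r ≠ v → ∀ a ∈ C, ∀ b ∈ cl r, (a, b) ∉ Bad' →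
      (G.Adj a b ↔ G.Adj v r) := by
    intro r hr hru hrv a ha b hb hab
    have hab0 : (a, b) ∉ Bad := fun h => hab (by
      rw [hBad']; exact mem_union_left _ (mem_union_left _ h))
    rcases mem_union.1 ha with ha | ha
    · have h1 := hst.good u hu r hr (Ne.symm hru) a ha b hb hab0
      rw [h1]
      have h2 : r ∉ X := by
        intro hrX
        apply hab
        rw [hBad']
        refine mem_union_left _ (mem_union_right _ (mem_product.2 ⟨ha, ?_⟩))
        rw [hU]
        exact mem_biUnion.2 ⟨r, hrX, hb⟩
      rw [hXdef, mem_filter] at h2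
      by_contra hcon
      exact h2 ⟨hr, hru, hrv, hcon⟩
    · exact hst.good v hv r hr (Ne.symm hrv) a ha b hb hab0
  have key2 : ∀ r ∈ R, r ≠ u → r ≠ v → ∀ a ∈ cl r, ∀ b ∈ C, (a, b) ∉ Bad' →
      (G.Adj a b ↔ G.Adj r v) := by
    intro r hr hru hrv a ha b hb hab
    have hab0 : (a, b) ∉ Bad := fun h => hab (by
      rw [hBad']; exact mem_union_left _ (mem_union_left _ h))
    rcases mem_union.1 hb with hb | hb
    · have h1 := hst.good r hr u hu hru a ha b hb hab0
      rw [h1]
      have h2 : r ∉ X := by
        intro hrX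
        apply hab
        rw [hBad']
        refine mem_union_right _ (mem_product.2 ⟨?_, hb⟩)
        rw [hU]
        exact mem_biUnion.2 ⟨r, hrX, ha⟩
      rw [hXdef, mem_filter] at h2
      by_contra hcon
      refine h2 ⟨hr, hru, hrv, ?_⟩
      rw [G.adj_comm u r, G.adj_comm v r]
      exact hcon
    · exact hst.good r hr v hv hrv a ha b hb hab0
  have hsumR : ∑ r ∈ R, (cl r).card =
      (∑ r ∈ (R.erase u).erase v, (cl r).card) + C.card := by
    rw [← add_sum_erase R _ hu, ← add_sum_erase (R.erase u) _ (mem_erase.2 ⟨huv.symm, hv⟩), hCc]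
    ring
  have hcardR1 : (R.erase u).card = R.card - 1 := card_erase_of_mem hu
  have hcardR2 : ((R.erase u).erase v).card = R.card - 1 - 1 := by
    rw [card_erase_of_mem (mem_erase.2 ⟨huv.symm, hv⟩), hcardR1]
  by_cases hfr : C.card < s
  · -- merge
    set cl' : V → Finset V := Function.update cl v C with hcl'
    have hv' : cl' v = C := by rw [hcl', Function.update_self]
    have hne' : ∀ r, r ≠ v → cl' r = cl r := fun r hr => by
      rw [hcl', Function.update_of_ne hr]
    have hdisjC : ∀ r ∈ R, r ≠ u → r ≠ v → Disjoint C (cl r) := by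
      intro r hr h1 h2
      rw [hC, disjoint_union_left]
      exact ⟨hst.disj u hu r hr (Ne.symm h1), hst.disj v hv r hr (Ne.symm h2)⟩
    refine ih (R.erase u).card (by omega) (R.erase u) cl' Bad' f (N + 1) rfl ?_
    constructor
    · intro r hr
      rcases eq_or_ne r v with h | h
      · rw [h, hv']; exact mem_union_right _ (hst.root v hv)
      · rw [hne' r h]; exact hst.root r (mem_of_mem_erase hr)
    · intro r hr
      rcases eq_or_ne r v with h | h
      · rw [h, hv', hC]; exact union_subset (hst.sub u hu) (hst.sub v hv)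
      · rw [hne' r h]; exact hst.sub r (mem_of_mem_erase hr)
    · intro r hr r' hr' hrr'
      have h1 := mem_erase.1 hr
      have h2 := mem_erase.1 hr'
      rcases eq_or_ne r v with h | h
      · rw [h, hv', hne' r' (fun h3 => hrr' (h.trans h3.symm))]
        exact hdisjC r' h2.2 h2.1 (fun h3 => hrr' (h.trans h3.symm))
      · rcases eq_or_ne r' v with h' | h'
        · rw [h', hv', hne' r h]
          exact (hdisjC r h1.2 h1.1 h).symm
        · rw [hne' r h, hne' r' h']
          exact hst.disj r h1.2 r' h2.2 hrr'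
    · intro r hr
      rcases eq_or_ne r v with h | h
      · rw [h, hv']; exact hfr
      · rw [hne' r h]; exact hst.small r (mem_of_mem_erase hr)
    · intro r hr r' hr' hrr' a ha b hb hab
      have h1 := mem_erase.1 hr
      have h2 := mem_erase.1 hr'
      rcases eq_or_ne r v with h | h
      · subst h
        have h3 : r' ≠ r := Ne.symm hrr'
        rw [hv'] at ha
        rw [hne' r' h3] at hb
        exact key r' h2.2 h2.1 h3 a ha b hb hab
      · rcases eq_or_ne r' v with h' | h'
        · subst h'
          rw [hv'] at hb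
          rw [hne' r h] at ha
          exact key2 r h1.2 h1.1 h a ha b hb hab
        · rw [hne' r h] at ha
          rw [hne' r' h'] at hb
          refine hst.good r h1.2 r' h2.2 hrr' a ha b hb (fun h3 => hab ?_)
          rw [hBad']; exact mem_union_left _ (mem_union_left _ h3)
    · have h1 : ∑ r ∈ R.erase u, (cl' r).card = ∑ r ∈ R, (cl r).card := by
        rw [hsumR, ← add_sum_erase (R.erase u) _ (mem_erase.2 ⟨huv.symm, hv⟩), hv', add_comm]
        congr 1
        refine sum_congr rfl (fun r hr => ?_)
        rw [hne' r (mem_erase.1 hr).1]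
      rw [h1]; exact hst.cover
    · have := hst.count
      nlinarith
    · have := hst.steps
      omega
  · -- freeze
    push Not at hfr
    set R'' := (R.erase u).erase v with hR''
    have hmem : ∀ r ∈ R'', r ∈ R ∧ r ≠ u ∧ r ≠ v := by
      intro r hr
      rw [hR'', mem_erase, mem_erase] at hr
      exact ⟨hr.2.2, hr.2.1, hr.1⟩
    set T := R''.biUnion cl with hT
    have hTcard : T.card = ∑ r ∈ R'', (cl r).card := by
      rw [hT]
      apply card_biUnion
      intro r hr r' hr' hrr'
      exact hst.disj r (hmem r hr).1 r' (hmem r' hr').1 hrr'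
    have hCS : C ⊆ S := by rw [hC]; exact union_subset (hst.sub u hu) (hst.sub v hv)
    have hTS : T ⊆ S := by
      rw [hT, biUnion_subset]
      exact fun r hr => hst.sub r (hmem r hr).1
    have hCT : Disjoint C T := by
      rw [hT, disjoint_biUnion_right]
      intro r hr
      obtain ⟨h1, h2, h3⟩ := hmem r hr
      rw [hC, disjoint_union_left]
      exact ⟨hst.disj u hu r h1 (Ne.symm h2), hst.disj v hv r h1 (Ne.symm h3)⟩
    have hT4 : S.card ≤ 4 * T.card := by
      rw [hTcard]
      omega
    have hbig := hng C T hCS hTS hCT hfr (by omega) hT4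
    set Bad'' := Bad'.filter (fun p => p.1 ∉ C) with hB''
    have hsub : T.filter (fun b => ¬ Homog G C {b}) ⊆
        (Bad'.filter (fun p => p.1 ∈ C)).image Prod.snd := by
      intro b hb
      rw [mem_filter] at hb
      obtain ⟨hbT, hbH⟩ := hb
      rw [hT, mem_biUnion] at hbT
      obtain ⟨r, hr, hbr⟩ := hbT
      obtain ⟨h1, h2, h3⟩ := hmem r hr
      rw [mem_image]
      by_contra hcon
      push Not at hcon
      apply hbH
      have hall : ∀ a ∈ C, (G.Adj a b ↔ G.Adj v r) := by
        intro a ha
        refine key r h1 h2 h3 a ha b hbr (fun h4 => ?_)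
        exact hcon (a, b) (mem_filter.2 ⟨h4, ha⟩) rfl
      by_cases hvr : G.Adj v r
      · left
        intro a ha b' hb'
        rw [mem_singleton] at hb'
        rw [hb']; exact (hall a ha).2 hvr
      · right
        intro a ha b' hb'
        rw [mem_singleton] at hb'
        rw [hb']; exact fun h => hvr ((hall a ha).1 h)
    have hcnt : 8 * t * s ^ 3 + 1 ≤ (Bad'.filter (fun p => p.1 ∈ C)).card :=
      hbig.trans_le ((card_le_card hsub).trans card_image_le)
    have hsplit : (Bad'.filter (fun p => p.1 ∈ C)).card + Bad''.card = Bad'.card := by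
      rw [hB'']
      exact card_filter_add_card_filter_not (s := Bad') (fun p => p.1 ∈ C)
    refine ih R''.card (by omega) R'' cl Bad'' (f + 1) (N + 1) rfl ?_
    constructor
    · exact fun r hr => hst.root r (hmem r hr).1
    · exact fun r hr => hst.sub r (hmem r hr).1
    · exact fun r hr r' hr' => hst.disj r (hmem r hr).1 r' (hmem r' hr').1
    · exact fun r hr => hst.small r (hmem r hr).1
    · intro r hr r' hr' hrr' a ha b hb hab
      refine hst.good r (hmem r hr).1 r' (hmem r' hr').1 hrr' a ha b hb (fun h => hab ?_)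
      rw [hB'', mem_filter]
      refine ⟨?_, ?_⟩
      · rw [hBad']; exact mem_union_left _ (mem_union_left _ h)
      · intro haC
        have haT : a ∈ T := by
          rw [hT]; exact mem_biUnion.2 ⟨r, hr, ha⟩
        exact disjoint_left.1 hCT haC haT
    · have h1 := hst.cover
      rw [hsumR] at h1
      have h2 : 2 * s * (f + 1) = 2 * s * f + 2 * s := by ring
      omega
    · have h1 := hst.count
      have h2 : (8 * t * s ^ 3 + 1) * (f + 1) = (8 * t * s ^ 3 + 1) * f + (8 * t * s ^ 3 + 1) := by
        ring
      have h3 : (N + 1) * (2 * t * s ^ 2) = N * (2 * t * s ^ 2) + 2 * t * s ^ 2 := by ring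
      omega
    · have := hst.steps
      omega

end Pool.Agent.Helper91_TW
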