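import Mathlib
import Pool.Agent.Helper91_TW.Pair

set_option autoImplicit false

/-!
# The upper bound for colourings of small symmetric difference
-/

namespace Pool.Agent.Helper91_TW

open Finset

variable {V : Type} [DecidableEq V]

/-- from individually homogeneous vertices to a homogeneous pair -/
theorem split_homog (G : SimpleGraph V) (C T : Finset V) (m : ℕ)
    (h : ∀ b ∈ T, Homog G C {b}) (hT : 2 * m ≤ T.card + 1) :
    ∃ B ⊆ T, m ≤ B.card ∧ Homog G C B := by
  classical
  set T1 := T.filter (fun b => ∀ a ∈ C, G.Adj a b) with hT1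
  set T2 := T.filter (fun b => ∀ a ∈ C, ¬ G.Adj a b) with hT2
  have hsub : T ⊆ T1 ∪ T2 := by
    intro b hb
    rw [mem_union, hT1, hT2, mem_filter, mem_filter]
    rcases h b hb with h1 | h1
    · exact Or.inl ⟨hb, fun a ha => h1 a ha b (mem_singleton_self b)⟩
    · exact Or.inr ⟨hb, fun a ha => h1 a ha b (mem_singleton_self b)⟩
  have hcard : T.card ≤ T1.card + T2.card := (card_le_card hsub).trans (card_union_le _ _)
  by_cases h1 : m ≤ T1.card
  · exact ⟨T1, filter_subset _ _, h1, Or.inl (fun a ha b hb => (mem_filter.1 hb).2 a ha)⟩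
  · exact ⟨T2, filter_subset _ _, by omega, Or.inr (fun a ha b hb => (mem_filter.1 hb).2 a ha)⟩

theorem pair_symDiff (G : SimpleGraph V) {t s : ℕ} (hG : SymDiffLe G t) (hs : 2 ≤ s)
    (S : Finset V) (hS : 64 * (t + 1) * s ^ 3 ≤ S.card) :
    ∃ A B : Finset V, A ⊆ S ∧ B ⊆ S ∧ Disjoint A B ∧ s ≤ A.card ∧ S.card ≤ 16 * B.card ∧
      Homog G A B := by
  classical
  by_contra hcon
  push Not at hcon
  have hs3 : s ≤ s ^ 3 := Nat.le_self_pow (by norm_num) s
  have h8 : 8 * s ≤ S.card := by nlinarith
  refine pair_aux G hG S h8 (by omega) ?_ S.card S (fun v => {v}) ∅ 0 0 rfl ?_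
  · intro C T hC hT hCT hsC _ hT4
    by_contra hle
    push Not at hle
    set T' := T.filter (fun b => Homog G C {b}) with hT'
    have hsplit : T'.card + (T.filter (fun b => ¬ Homog G C {b})).card = T.card := by
      rw [hT']
      exact card_filter_add_card_filter_not (s := T) (fun b => Homog G C {b})
    have h64 : 64 * t * s ^ 3 + 64 ≤ S.card := by
      have : 1 ≤ s ^ 3 := Nat.one_le_pow _ _ (by omega)
      nlinarith
    have hT'8 : S.card ≤ 8 * T'.card := by
      have e : 8 * (8 * t * s ^ 3) = 64 * t * s ^ 3 := by ring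
      omega
    obtain ⟨B, hB, hBm, hBH⟩ := split_homog G C T' ((T'.card + 1) / 2)
      (fun b hb => (mem_filter.1 hb).2) (by omega)
    have hBT : B ⊆ T := hB.trans (filter_subset _ _)
    exact hcon C B hC (hBT.trans hT) (disjoint_of_subset_right hBT hCT) hsC (by omega) hBH
  · constructor
    · intro r _; exact mem_singleton_self r
    · intro r hr; exact singleton_subset_iff.2 hr
    · intro r _ r' _ h; exact disjoint_singleton.2 h
    · intro r _; rw [card_singleton]; omega
    · intro r _ r' _ _ a ha b hb _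
      rw [mem_singleton] at ha hb
      rw [ha, hb]
    · simp
    · simp
    · simp

theorem greedy (G : SimpleGraph V) [DecidableRel G.Adj] {D : ℕ} (hD0 : 0 < D) :
    ∀ (j : ℕ) (S : Finset V), (∀ v ∈ S, (S.filter (G.Adj v)).card < D) → j * D ≤ S.card →
      ∃ T ⊆ S, Gᶜ.IsNClique j T := by
  intro j
  induction j with
  | zero => intro S _ _; exact ⟨∅, empty_subset _, by simp⟩
  | succ j ih =>
    intro S hD hS
    have hSpos : 0 < S.card := lt_of_lt_of_le (Nat.mul_pos (Nat.succ_pos j) hD0) hS
    obtain ⟨v, hv⟩ := card_pos.1 hSpos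
    set S' := (S.erase v).filter (fun w => ¬ G.Adj v w) with hS'
    have hsub : S' ⊆ S := (filter_subset _ _).trans (erase_subset _ _)
    have h1 : ((S.erase v).filter (G.Adj v)).card ≤ (S.filter (G.Adj v)).card :=
      card_le_card (filter_subset_filter _ (erase_subset _ _))
    have h2 : ((S.erase v).filter (G.Adj v)).card + S'.card = (S.erase v).card := by
      rw [hS']
      exact card_filter_add_card_filter_not (s := S.erase v) (fun w => G.Adj v w)
    have h3 := hD v hv
    have h4 : (S.erase v).card = S.card - 1 := card_erase_of_mem hv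
    have h6 : j * D ≤ S'.card := by
      have e : (j + 1) * D = j * D + D := by ring
      omega
    obtain ⟨T, hT, hTc⟩ := ih S' (fun w hw => by
      refine lt_of_le_of_lt (card_le_card ?_) (hD w (hsub hw))
      exact filter_subset_filter _ hsub) h6
    refine ⟨insert v T, insert_subset hv (hT.trans hsub), ?_⟩
    refine hTc.insert (fun b hb => ?_)
    have hb' := hT hb
    rw [hS', mem_filter, mem_erase] at hb'
    rw [SimpleGraph.compl_adj]
    exact ⟨hb'.1.1.symm, hb'.2⟩

/-- A simple bound of Ramsey type. -/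
theorem ramsey_pow (k : ℕ) (hk : 1 ≤ k) :
    ∀ (a : ℕ) (G : SimpleGraph V) (S : Finset V), k ^ a ≤ S.card →
      (∃ T ⊆ S, G.IsNClique a T) ∨ (∃ T ⊆ S, Gᶜ.IsNClique k T) := by
  classical
  intro a
  induction a with
  | zero => intro G S _; exact Or.inl ⟨∅, empty_subset _, by simp⟩
  | succ a ih =>
    intro G S hS
    by_cases h : ∃ v ∈ S, k ^ a ≤ (S.filter (G.Adj v)).card
    · obtain ⟨v, hv, hdeg⟩ := h
      rcases ih G (S.filter (G.Adj v)) hdeg with ⟨T, hT, hTc⟩ | ⟨T, hT, hTc⟩
      · refine Or.inl ⟨insert v T, insert_subset hv (hT.trans (filter_subset _ _)), ?_⟩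
        exact hTc.insert (fun b hb => (mem_filter.1 (hT hb)).2)
      · exact Or.inr ⟨T, hT.trans (filter_subset _ _), hTc⟩
    · push Not at h
      right
      refine greedy G (Nat.pow_pos (by omega)) k S h ?_
      rw [pow_succ, mul_comm] at hS
      exact hS

/-- In a colouring without monochromatic `K_k` every set of `k ^ a` vertices contains a red and a
blue `K_a`. -/
theorem cliques_of_card {G : SimpleGraph V} {k : ℕ} (hk : 1 ≤ k) (hG : NoMono G k) (a : ℕ)
    (S : Finset V) (hS : k ^ a ≤ S.card) :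
    (∃ T ⊆ S, G.IsNClique a T) ∧ (∃ T ⊆ S, Gᶜ.IsNClique a T) := by
  constructor
  · rcases ramsey_pow k hk a G S hS with h | ⟨T, _, hT⟩
    · exact h
    · exact absurd hT (hG.2 T)
  · rcases ramsey_pow k hk a Gᶜ S hS with h | ⟨T, _, hT⟩
    · exact h
    · rw [compl_compl] at hT
      exact absurd hT (hG.1 T)

/-- union of two completely joined cliques -/
theorem clique_union {G : SimpleGraph V} {m n : ℕ} {A B : Finset V} (hA : G.IsNClique m A)
    (hB : G.IsNClique n B) (h : ∀ a ∈ A, ∀ b ∈ B, G.Adj a b) : G.IsNClique (m + n) (A ∪ B) := by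
  have hd : Disjoint A B := by
    rw [disjoint_left]
    intro x hx hx'
    exact G.loopless.irrefl x (h x hx x hx')
  constructor
  · rw [SimpleGraph.isClique_iff, coe_union]
    intro x hx y hy hxy
    rcases hx with hx | hx <;> rcases hy with hy | hy
    · exact hA.isClique hx hy hxy
    · exact h x hx y hy
    · exact (h y hy x hx).symm
    · exact hB.isClique hx hy hxy
  · rw [card_union_of_disjoint hd, hA.card_eq, hB.card_eq]

theorem main_ind {G : SimpleGraph V} {k t a : ℕ} (hk : 1 ≤ k) (hG : NoMono G k)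
    (hD : SymDiffLe G t) (ha : 2 ≤ k ^ a) :
    ∀ (n i j : ℕ) (S : Finset V), i + j = n →
      16 ^ n * (64 * (t + 1) * (k ^ a) ^ 3) ≤ S.card →
      (∃ T ⊆ S, G.IsNClique (a * i) T) ∨ (∃ T ⊆ S, Gᶜ.IsNClique (a * j) T) := by
  intro n
  induction n with
  | zero =>
    intro i j S hij _
    have hi : i = 0 := by omega
    subst hi
    exact Or.inl ⟨∅, empty_subset _, by simp⟩
  | succ n ih =>
    intro i j S hij hS
    rcases Nat.eq_zero_or_pos i with hi | hi
    · subst hi
      exact Or.inl ⟨∅, empty_subset _, by simp⟩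
    rcases Nat.eq_zero_or_pos j with hj | hj
    · subst hj
      exact Or.inr ⟨∅, empty_subset _, by simp⟩
    have h64 : 64 * (t + 1) * (k ^ a) ^ 3 ≤ S.card :=
      (Nat.le_mul_of_pos_left _ (by positivity)).trans hS
    obtain ⟨A, B, hA, hB, hAB, hAs, hBs, hH⟩ := pair_symDiff G hD ha S h64
    obtain ⟨⟨T1, hT1, hc1⟩, ⟨T2, hT2, hc2⟩⟩ := cliques_of_card hk hG a A hAs
    have hB' : 16 ^ n * (64 * (t + 1) * (k ^ a) ^ 3) ≤ B.card := by
      have e : 16 ^ (n + 1) * (64 * (t + 1) * (k ^ a) ^ 3) =
        16 * (16 ^ n * (64 * (t + 1) * (k ^ a) ^ 3)) := by ring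
      omega
    rcases hH with hH | hH
    · rcases ih (i - 1) j B (by omega) hB' with ⟨T, hT, hc⟩ | ⟨T, hT, hc⟩
      · left
        refine ⟨T1 ∪ T, union_subset (hT1.trans hA) (hT.trans hB), ?_⟩
        have h := clique_union hc1 hc (fun x hx y hy => hH x (hT1 hx) y (hT hy))
        have e : a * i = a + a * (i - 1) := by
          obtain ⟨i', rfl⟩ : ∃ i', i = i' + 1 := ⟨i - 1, by omega⟩
          simp only [Nat.add_sub_cancel]
          ring
        rw [e]; exact h
      · exact Or.inr ⟨T, hT.trans hB, hc⟩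
    · rcases ih i (j - 1) B (by omega) hB' with ⟨T, hT, hc⟩ | ⟨T, hT, hc⟩
      · exact Or.inl ⟨T, hT.trans hB, hc⟩
      · right
        refine ⟨T2 ∪ T, union_subset (hT2.trans hA) (hT.trans hB), ?_⟩
        have h := clique_union hc2 hc (fun x hx y hy => by
          rw [SimpleGraph.compl_adj]
          refine ⟨?_, hH x (hT2 hx) y (hT hy)⟩
          rintro rfl
          exact disjoint_left.1 hAB (hT2 hx) (hT hy))
        have e : a * j = a + a * (j - 1) := by
          obtain ⟨j', rfl⟩ : ∃ j', j = j' + 1 := ⟨j - 1, by omega⟩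
          simp only [Nat.add_sub_cancel]
          ring
        rw [e]; exact h

theorem upper_nat [Fintype V] {G : SimpleGraph V} {k t a q : ℕ} (hk : 1 ≤ k) (hG : NoMono G k)
    (hD : SymDiffLe G t) (ha : 2 ≤ k ^ a) (hq : k ≤ a * q) :
    Fintype.card V < 16 ^ (2 * q) * (64 * (t + 1) * (k ^ a) ^ 3) := by
  by_contra hcon
  push Not at hcon
  rcases main_ind hk hG hD ha (2 * q) q q univ (by ring) (by rw [card_univ]; exact hcon) with
    ⟨T, _, hT⟩ | ⟨T, _, hT⟩
  · exact (hG.1.mono hq) T hT
  · exact (hG.2.mono hq) T hT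

end Pool.Agent.Helper91_TW
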