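import Mathlib
import Pool.Agent.Helper91_TW.Upper1

set_option autoImplicit false

/-!
# Twin-width and clique-width: symmetric difference and homogeneous pairs
-/

namespace Pool.Agent.Helper91_TW

open Finset

variable {V : Type} [Fintype V] [DecidableEq V]

open Classical in
theorem contract_first {G : SimpleGraph V} {t s : ℕ} (hs : 2 ≤ s) (S : Finset V)
    {P : Finset (Finset V)} (hP : Contractible G t P) :
    (∀ v, ∃ A ∈ P, v ∈ A) ∧
    ((∀ A ∈ P, (A ∩ S).card < s) ∨
      (∃ C : Finset V, s ≤ (C ∩ S).card ∧ (C ∩ S).card + 2 ≤ 2 * s ∧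
        ((S \ C).filter (fun b => ¬ Homog G (C ∩ S) {b})).card ≤ t * (s - 1))) := by
  induction hP with
  | start =>
    refine ⟨fun v => ⟨{v}, mem_image.2 ⟨v, mem_univ v, rfl⟩, mem_singleton_self v⟩, Or.inl ?_⟩
    intro A hA
    obtain ⟨v, _, rfl⟩ := mem_image.1 hA
    calc (({v} : Finset V) ∩ S).card ≤ ({v} : Finset V).card := card_le_card inter_subset_left
      _ < s := by rw [card_singleton]; omega
  | step P A B hP hA hB hAB hred ih =>
    obtain ⟨hcov, hor⟩ := ih
    have hcov' : ∀ v, ∃ D ∈ insert (A ∪ B) ((P.erase A).erase B), v ∈ D := by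
      intro v
      obtain ⟨D, hD, hv⟩ := hcov v
      by_cases h1 : D = A
      · exact ⟨A ∪ B, mem_insert_self _ _, mem_union_left _ (h1 ▸ hv)⟩
      · by_cases h2 : D = B
        · exact ⟨A ∪ B, mem_insert_self _ _, mem_union_right _ (h2 ▸ hv)⟩
        · exact ⟨D, mem_insert_of_mem (mem_erase.2 ⟨h2, mem_erase.2 ⟨h1, hD⟩⟩), hv⟩
    refine ⟨hcov', ?_⟩
    rcases hor with hsm | hQ
    · by_cases hC : ((A ∪ B) ∩ S).card < s
      · left
        intro D hD
        rcases mem_insert.1 hD with h | h
        · rw [h]; exact hC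
        · exact hsm D (mem_of_mem_erase (mem_of_mem_erase h))
      · right
        push Not at hC
        refine ⟨A ∪ B, hC, ?_, ?_⟩
        · have h1 := hsm A hA
          have h2 := hsm B hB
          have h3 : ((A ∪ B) ∩ S).card ≤ (A ∩ S).card + (B ∩ S).card := by
            rw [union_inter_distrib_right]; exact card_union_le _ _
          omega
        · set P' := insert (A ∪ B) ((P.erase A).erase B) with hP'
          set Q := P'.filter (fun D => D ≠ A ∪ B ∧ ¬ Homog G (A ∪ B) D) with hQ
          have h1 : Q.card ≤ t := by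
            rw [hQ]
            convert hred (A ∪ B) (mem_insert_self _ _)
          have hsub : (S \ (A ∪ B)).filter (fun b => ¬ Homog G ((A ∪ B) ∩ S) {b}) ⊆
              Q.biUnion (fun D => D ∩ S) := by
            intro b hb
            rw [mem_filter, mem_sdiff] at hb
            obtain ⟨⟨hbS, hbC⟩, hbH⟩ := hb
            obtain ⟨D, hD, hbD⟩ := hcov' b
            rw [mem_biUnion]
            refine ⟨D, ?_, mem_inter.2 ⟨hbD, hbS⟩⟩
            rw [hQ, mem_filter]
            refine ⟨hD, ?_, ?_⟩
            · rintro rfl; exact hbC hbD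
            · intro hH
              apply hbH
              rcases hH with hH | hH
              · left
                intro a ha b' hb'
                rw [mem_singleton] at hb'
                rw [hb']
                exact hH a (mem_inter.1 ha).1 b hbD
              · right
                intro a ha b' hb'
                rw [mem_singleton] at hb'
                rw [hb']
                exact hH a (mem_inter.1 ha).1 b hbD
          calc ((S \ (A ∪ B)).filter (fun b => ¬ Homog G ((A ∪ B) ∩ S) {b})).card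
              ≤ (Q.biUnion (fun D => D ∩ S)).card := card_le_card hsub
            _ ≤ ∑ D ∈ Q, (D ∩ S).card := card_biUnion_le
            _ ≤ ∑ D ∈ Q, (s - 1) := by
                refine sum_le_sum (fun D hD => ?_)
                rw [hQ, mem_filter, hP', mem_insert] at hD
                rcases hD.1 with h | h
                · exact absurd h hD.2.1
                · have := hsm D (mem_of_mem_erase (mem_of_mem_erase h))
                  omega
            _ = Q.card * (s - 1) := by rw [sum_const, smul_eq_mul]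
            _ ≤ t * (s - 1) := Nat.mul_le_mul_right _ h1
    · exact Or.inr hQ

open Classical in
theorem twinWidth_cluster {G : SimpleGraph V} {t s : ℕ} (hG : TwinWidthLe G t) (hs : 2 ≤ s)
    (S : Finset V) (hS : s ≤ S.card) :
    ∃ C : Finset V, s ≤ (C ∩ S).card ∧ (C ∩ S).card + 2 ≤ 2 * s ∧
        ((S \ C).filter (fun b => ¬ Homog G (C ∩ S) {b})).card ≤ t * (s - 1) := by
  rcases (contract_first hs S hG).2 with h | h
  · have := h univ (mem_singleton_self _)
    rw [univ_inter] at this
    omega
  · exact h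

theorem symDiff_of_twinWidth {G : SimpleGraph V} {t : ℕ} (hG : TwinWidthLe G t) :
    SymDiffLe G t := by
  classical
  intro S hS
  obtain ⟨C, h1, h2, h3⟩ := twinWidth_cluster hG le_rfl S hS
  obtain ⟨u, hu, v, hv, huv⟩ := one_lt_card.1 (by omega : 1 < (C ∩ S).card)
  have hcard : (C ∩ S).card = 2 := by omega
  have hpair : ∀ w ∈ C ∩ S, w = u ∨ w = v := by
    intro w hw
    by_contra hcon
    push Not at hcon
    have : ({u, v, w} : Finset V) ⊆ C ∩ S := by
      intro x hx
      simp only [mem_insert, mem_singleton] at hx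
      rcases hx with rfl | rfl | rfl <;> assumption
    have h5 := card_le_card this
    rw [card_eq_three.2 ⟨u, v, w, huv, hcon.1.symm, hcon.2.symm, rfl⟩] at h5
    omega
  refine ⟨u, (mem_inter.1 hu).2, v, (mem_inter.1 hv).2, huv, ?_⟩
  refine le_trans (card_le_card ?_) (h3.trans (by simp))
  intro w hw
  rw [mem_filter] at hw ⊢
  obtain ⟨hwS, hwu, hwv, hwd⟩ := hw
  refine ⟨?_, ?_⟩
  · rw [mem_sdiff]
    refine ⟨hwS, fun hwC => ?_⟩
    rcases hpair w (mem_inter.2 ⟨hwC, hwS⟩) with h | h
    · exact hwu h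
    · exact hwv h
  · intro hH
    apply hwd
    rcases hH with hH | hH
    · exact ⟨fun _ => hH v hv w (mem_singleton_self w), fun _ => hH u hu w (mem_singleton_self w)⟩
    · exact ⟨fun h => absurd h (hH u hu w (mem_singleton_self w)),
        fun h => absurd h (hH v hv w (mem_singleton_self w))⟩

/-- Homogeneous pairs of linear size. -/
def LinPairs {V : Type} (G : SimpleGraph V) (W : ℕ) : Prop :=
  ∀ S : Finset V, W ≤ S.card → ∃ A B : Finset V, A ⊆ S ∧ B ⊆ S ∧ Disjoint A B ∧
    S.card ≤ W * A.card ∧ S.card ≤ 12 * B.card ∧ Homog G A B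

theorem linPairs_of_twinWidth {G : SimpleGraph V} {t : ℕ} (hG : TwinWidthLe G t) :
    LinPairs G (12 * (t + 1)) := by
  classical
  intro S hS
  set s := S.card / (4 * (t + 1)) with hs
  have hpos : 0 < 4 * (t + 1) := by omega
  have hs3 : 3 ≤ s := by
    rw [hs, Nat.le_div_iff_mul_le hpos]
    omega
  have hs1 : s * (4 * (t + 1)) ≤ S.card := Nat.div_mul_le_self _ _
  have hs2 : S.card < (s + 1) * (4 * (t + 1)) := by
    rw [hs]
    exact Nat.lt_mul_of_div_lt (Nat.lt_succ_self _) hpos
  obtain ⟨C, h1, h2, h3⟩ := twinWidth_cluster hG (by omega : 2 ≤ s) S (by nlinarith)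
  set T := (S \ C).filter (fun b => Homog G (C ∩ S) {b}) with hT
  have hsplit : T.card + ((S \ C).filter (fun b => ¬ Homog G (C ∩ S) {b})).card = (S \ C).card := by
    rw [hT]
    exact card_filter_add_card_filter_not (s := S \ C) (fun b => Homog G (C ∩ S) {b})
  have hSC : (S \ C).card + (C ∩ S).card = S.card := by
    rw [inter_comm]; exact card_sdiff_add_card_inter S C
  have hts : 4 * (t * (s - 1)) ≤ S.card := by
    have : t * (s - 1) ≤ (t + 1) * s := Nat.mul_le_mul (by omega) (by omega)
    nlinarith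
  have h4s : 4 * s ≤ S.card := by nlinarith
  have hT4 : S.card ≤ 4 * T.card := by omega
  obtain ⟨B, hB, hBm, hBH⟩ := split_homog G (C ∩ S) T ((T.card + 1) / 2)
    (fun b hb => (mem_filter.1 hb).2) (by omega)
  refine ⟨C ∩ S, B, inter_subset_right, hB.trans ((filter_subset _ _).trans sdiff_subset), ?_, ?_,
    by omega, hBH⟩
  · rw [disjoint_left]
    intro x hx hxB
    have := (mem_filter.1 (hB hxB)).1
    rw [mem_sdiff] at this
    exact this.2 (mem_inter.1 hx).1
  · nlinarith

/-! ### Clique-width -/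

omit [Fintype V] in
theorem cwBuilt_support {w : ℕ} {S : Finset V} {E : V → V → Prop} {l : V → Fin w}
    (h : CwBuilt w S E l) : ∀ x y, E x y → x ∈ S ∧ y ∈ S := by
  induction h with
  | vertex v l => intro x y h; exact h.elim
  | union S T E F l hd hS hT ihS ihT =>
    intro x y h
    rcases h with h | h
    · exact ⟨mem_union_left _ (ihS x y h).1, mem_union_left _ (ihS x y h).2⟩
    · exact ⟨mem_union_right _ (ihT x y h).1, mem_union_right _ (ihT x y h).2⟩
  | join S E l i j hij hS ih =>
    intro x y h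
    rcases h with h | h
    · exact ih x y h
    · exact ⟨h.1, h.2.1⟩
  | relabel S E l i j hS ih => exact ih
  | same S E l l' hl hS ih => exact ih

omit [Fintype V] in
theorem cwBuilt_node {w : ℕ} (S0 : Finset V) {m : ℕ} (hm : 1 ≤ m) {S : Finset V}
    {E : V → V → Prop} {l : V → Fin w} (h : CwBuilt w S E l) :
    m ≤ (S ∩ S0).card → ∃ (X : Finset V) (c : V → Fin w), X ⊆ S ∧ m ≤ (X ∩ S0).card ∧
      (X ∩ S0).card < 2 * m ∧
      ∀ u ∈ X, ∀ v ∈ X, c u = c v → l u = l v ∧ ∀ z ∈ S, z ∉ X → (E u z ↔ E v z) := by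
  induction h with
  | vertex v l =>
    intro hle
    refine ⟨{v}, l, subset_rfl, hle, ?_, ?_⟩
    · have : (({v} : Finset V) ∩ S0).card ≤ ({v} : Finset V).card := card_le_card inter_subset_left
      rw [card_singleton] at this
      omega
    · intro u _ v' _ huv
      exact ⟨huv, fun z hz hz' => absurd hz hz'⟩
  | union S T E F l hd hS hT ihS ihT =>
    intro hle
    by_cases h1 : m ≤ (S ∩ S0).card
    · obtain ⟨X, c, hXS, hX1, hX2, hX⟩ := ihS h1
      refine ⟨X, c, hXS.trans subset_union_left, hX1, hX2, ?_⟩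
      intro u hu v hv huv
      obtain ⟨ha, hb⟩ := hX u hu v hv huv
      refine ⟨ha, fun z hz hzX => ?_⟩
      have hFu : ∀ x ∈ X, ¬ F x z := fun x hx hF =>
        disjoint_left.1 hd (hXS hx) (cwBuilt_support hT x z hF).1
      by_cases hzS : z ∈ S
      · have := hb z hzS hzX
        constructor
        · rintro (h | h)
          · exact Or.inl (this.1 h)
          · exact absurd h (hFu u hu)
        · rintro (h | h)
          · exact Or.inl (this.2 h)
          · exact absurd h (hFu v hv)
      · constructor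
        · rintro (h | h)
          · exact absurd (cwBuilt_support hS u z h).2 hzS
          · exact absurd h (hFu u hu)
        · rintro (h | h)
          · exact absurd (cwBuilt_support hS v z h).2 hzS
          · exact absurd h (hFu v hv)
    · by_cases h2 : m ≤ (T ∩ S0).card
      · obtain ⟨X, c, hXT, hX1, hX2, hX⟩ := ihT h2
        refine ⟨X, c, hXT.trans subset_union_right, hX1, hX2, ?_⟩
        intro u hu v hv huv
        obtain ⟨ha, hb⟩ := hX u hu v hv huv
        refine ⟨ha, fun z hz hzX => ?_⟩
        have hEu : ∀ x ∈ X, ¬ E x z := fun x hx hF =>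
          disjoint_left.1 hd (cwBuilt_support hS x z hF).1 (hXT hx)
        by_cases hzT : z ∈ T
        · have := hb z hzT hzX
          constructor
          · rintro (h | h)
            · exact absurd h (hEu u hu)
            · exact Or.inr (this.1 h)
          · rintro (h | h)
            · exact absurd h (hEu v hv)
            · exact Or.inr (this.2 h)
        · constructor
          · rintro (h | h)
            · exact absurd h (hEu u hu)
            · exact absurd (cwBuilt_support hT u z h).2 hzT
          · rintro (h | h)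
            · exact absurd h (hEu v hv)
            · exact absurd (cwBuilt_support hT v z h).2 hzT
      · refine ⟨S ∪ T, l, subset_rfl, hle, ?_, ?_⟩
        · have h3 : ((S ∪ T) ∩ S0).card ≤ (S ∩ S0).card + (T ∩ S0).card := by
            rw [union_inter_distrib_right]; exact card_union_le _ _
          omega
        · intro u _ v' _ huv
          exact ⟨huv, fun z hz hz' => absurd hz hz'⟩
  | join S E l i j hij hS ih =>
    intro hle
    obtain ⟨X, c, hXS, hX1, hX2, hX⟩ := ih hle
    refine ⟨X, c, hXS, hX1, hX2, ?_⟩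
    intro u hu v hv huv
    obtain ⟨ha, hb⟩ := hX u hu v hv huv
    refine ⟨ha, fun z hz hzX => ?_⟩
    beta_reduce
    rw [hb z hz hzX, ha]
    have h1 : u ∈ S ↔ v ∈ S := ⟨fun _ => hXS hv, fun _ => hXS hu⟩
    rw [h1]
  | relabel S E l i j hS ih =>
    intro hle
    obtain ⟨X, c, hXS, hX1, hX2, hX⟩ := ih hle
    refine ⟨X, c, hXS, hX1, hX2, ?_⟩
    intro u hu v hv huv
    obtain ⟨ha, hb⟩ := hX u hu v hv huv
    refine ⟨?_, hb⟩
    show (if l u = i then j else l u) = (if l v = i then j else l v)
    rw [ha]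
  | same S E l l' hl hS ih =>
    intro hle
    obtain ⟨X, c, hXS, hX1, hX2, hX⟩ := ih hle
    refine ⟨X, c, hXS, hX1, hX2, ?_⟩
    intro u hu v hv huv
    obtain ⟨ha, hb⟩ := hX u hu v hv huv
    refine ⟨?_, hb⟩
    rw [← hl u (hXS hu), ← hl v (hXS hv)]
    exact ha

theorem cliqueWidth_node {G : SimpleGraph V} {w : ℕ} (hG : CliqueWidthLe G w) (S : Finset V)
    {m : ℕ} (hm : 1 ≤ m) (hS : m ≤ S.card) :
    ∃ (X : Finset V) (c : V → Fin w), m ≤ (X ∩ S).card ∧ (X ∩ S).card < 2 * m ∧
      ∀ u ∈ X, ∀ v ∈ X, c u = c v → ∀ z, z ∉ X → (G.Adj u z ↔ G.Adj v z) := by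
  obtain ⟨E, l, hb, hE⟩ := hG
  obtain ⟨X, c, _, h1, h2, h3⟩ := cwBuilt_node S hm hb (by rw [univ_inter]; exact hS)
  refine ⟨X, c, h1, h2, fun u hu v hv huv z hz => ?_⟩
  rw [← hE, ← hE]
  exact (h3 u hu v hv huv).2 z (mem_univ z) hz

theorem symDiff_of_cliqueWidth {G : SimpleGraph V} {w : ℕ} (hG : CliqueWidthLe G w) :
    SymDiffLe G (2 * w) := by
  classical
  intro S hS
  by_cases hSw : S.card ≤ w
  · obtain ⟨u, hu, v, hv, huv⟩ := one_lt_card.1 (by omega : 1 < S.card)
    exact ⟨u, hu, v, hv, huv, (card_le_card (filter_subset _ _)).trans (by omega)⟩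
  · push Not at hSw
    obtain ⟨X, c, h1, h2, h3⟩ := cliqueWidth_node hG S (by omega : 1 ≤ w + 1) hSw
    obtain ⟨u, hu, v, hv, huv, hc⟩ : ∃ u ∈ X ∩ S, ∃ v ∈ X ∩ S, u ≠ v ∧ c u = c v := by
      apply exists_ne_map_eq_of_card_lt_of_maps_to (t := (univ : Finset (Fin w)))
      · rw [card_univ, Fintype.card_fin]; omega
      · intro x _; exact mem_coe.2 (mem_univ _)
    refine ⟨u, (mem_inter.1 hu).2, v, (mem_inter.1 hv).2, huv, ?_⟩
    have hsub : S.filter (fun z => Distinguishes G u v z) ⊆ ((X ∩ S).erase u).erase v := by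
      intro z hz
      rw [mem_filter] at hz
      obtain ⟨hzS, hzu, hzv, hd⟩ := hz
      rw [mem_erase, mem_erase, mem_inter]
      refine ⟨hzv, hzu, ?_, hzS⟩
      by_contra hzX
      exact hd (h3 u (mem_inter.1 hu).1 v (mem_inter.1 hv).1 hc z hzX)
    have h4 := card_le_card hsub
    rw [card_erase_of_mem (mem_erase.2 ⟨huv.symm, hv⟩), card_erase_of_mem hu] at h4
    omega

theorem linPairs_of_cliqueWidth {G : SimpleGraph V} {w : ℕ} (hG : CliqueWidthLe G w)
    (hw : 1 ≤ w) : LinPairs G (12 * w) := by
  classical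
  intro S hS
  set m := (S.card + 2) / 3 with hm
  obtain ⟨X, c, h1, h2, h3⟩ := cliqueWidth_node hG S (m := m) (by omega) (by omega)
  -- the largest label class
  obtain ⟨i, -, hi⟩ : ∃ i ∈ (univ : Finset (Fin w)), (X ∩ S).card ≤
      w * ((X ∩ S).filter (fun x => c x = i)).card := by
    by_contra hcon
    push Not at hcon
    have hsum : (X ∩ S).card = ∑ i : Fin w, ((X ∩ S).filter (fun x => c x = i)).card := by
      apply card_eq_sum_card_fiberwise
      intro x _; exact mem_coe.2 (mem_univ _)
    have h4 : ∑ i : Fin w, (w * ((X ∩ S).filter (fun x => c x = i)).card) <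
        ∑ _i : Fin w, (X ∩ S).card := by
      apply sum_lt_sum_of_nonempty
      · exact ⟨⟨0, hw⟩, mem_univ _⟩
      · intro i hi; exact hcon i hi
    rw [← mul_sum, ← hsum, sum_const, card_univ, Fintype.card_fin, smul_eq_mul] at h4
    exact lt_irrefl _ h4
  set A := (X ∩ S).filter (fun x => c x = i) with hA
  have hAX : ∀ a ∈ A, a ∈ X ∧ a ∈ S ∧ c a = i := by
    intro a ha
    rw [hA, mem_filter, mem_inter] at ha
    exact ⟨ha.1.1, ha.1.2, ha.2⟩
  have hhom : ∀ b ∈ S \ X, Homog G A {b} := by
    intro b hb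
    rw [mem_sdiff] at hb
    by_cases hex : ∃ a ∈ A, G.Adj a b
    · obtain ⟨a, ha, hab⟩ := hex
      left
      intro a' ha' b' hb'
      rw [mem_singleton] at hb'
      rw [hb']
      exact (h3 a (hAX a ha).1 a' (hAX a' ha').1 ((hAX a ha).2.2.trans (hAX a' ha').2.2.symm) b
        hb.2).1 hab
    · push Not at hex
      right
      intro a' ha' b' hb'
      rw [mem_singleton] at hb'
      rw [hb']
      exact hex a' ha'
  have hSX : (S \ X).card + (X ∩ S).card = S.card := by
    rw [inter_comm]; exact card_sdiff_add_card_inter S X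
  obtain ⟨B, hB, hBm, hBH⟩ := split_homog G A (S \ X) (((S \ X).card + 1) / 2) hhom (by omega)
  refine ⟨A, B, fun a ha => (hAX a ha).2.1, hB.trans sdiff_subset, ?_, ?_, by omega, hBH⟩
  · rw [disjoint_left]
    intro x hx hxB
    have := hB hxB
    rw [mem_sdiff] at this
    exact this.2 (hAX x hx).1
  · have h5 : S.card ≤ 3 * m := by omega
    calc S.card ≤ 3 * m := h5
      _ ≤ 3 * (w * A.card) := Nat.mul_le_mul_left _ (h1.trans hi)
      _ ≤ 12 * w * A.card := by nlinarith [Nat.zero_le (w * A.card)]

end Pool.Agent.Helper91_TW
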