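import Mathlib
import Pool.Agent.Helper91_TW.Width

set_option autoImplicit false

/-!
# Lexicographic products
-/

namespace Pool.Agent.Helper91_TW

open Finset

/-- lexicographic product: every vertex of `H` is replaced by a copy of `G` -/
def lexG {α β : Type} (H : SimpleGraph α) (G : SimpleGraph β) : SimpleGraph (α × β) where
  Adj x y := H.Adj x.1 y.1 ∨ (x.1 = y.1 ∧ G.Adj x.2 y.2)
  symm := ⟨fun x y h => by
    rcases h with h | ⟨h1, h2⟩
    · exact Or.inl h.symm
    · exact Or.inr ⟨h1.symm, h2.symm⟩⟩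
  loopless := ⟨fun x h => by
    rcases h with h | ⟨_, h2⟩
    · exact H.loopless.irrefl _ h
    · exact G.loopless.irrefl _ h2⟩

theorem lexG_adj {α β : Type} (H : SimpleGraph α) (G : SimpleGraph β) (x y : α × β) :
    (lexG H G).Adj x y ↔ (H.Adj x.1 y.1 ∨ (x.1 = y.1 ∧ G.Adj x.2 y.2)) := Iff.rfl

theorem lexG_compl {α β : Type} (H : SimpleGraph α) (G : SimpleGraph β) :
    (lexG H G)ᶜ = lexG Hᶜ Gᶜ := by
  ext x y
  rw [SimpleGraph.compl_adj, lexG_adj, lexG_adj, SimpleGraph.compl_adj, SimpleGraph.compl_adj]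
  obtain ⟨a, b⟩ := x
  obtain ⟨a', b'⟩ := y
  simp only [ne_eq, Prod.mk.injEq]
  by_cases h : a = a'
  · subst h
    simp
  · simp [h]

theorem lexG_cliqueFree {α β : Type} [DecidableEq α] [DecidableEq β] {H : SimpleGraph α}
    {G : SimpleGraph β} {p q : ℕ} (hH : H.CliqueFree (p + 1)) (hG : G.CliqueFree (q + 1)) :
    (lexG H G).CliqueFree (p * q + 1) := by
  intro T hT
  have h1 : (T.image Prod.fst).card ≤ p := by
    by_contra hcon
    push Not at hcon
    refine hH.mono (by omega : p + 1 ≤ (T.image Prod.fst).card) (T.image Prod.fst) ⟨?_, rfl⟩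
    rw [SimpleGraph.isClique_iff]
    intro a ha a' ha' hne
    rw [mem_coe, mem_image] at ha ha'
    obtain ⟨x, hx, rfl⟩ := ha
    obtain ⟨y, hy, rfl⟩ := ha'
    have hxy : x ≠ y := fun h => hne (by rw [h])
    rcases hT.isClique hx hy hxy with h | ⟨h, _⟩
    · exact h
    · exact absurd h hne
  have h2 : ∀ a ∈ T.image Prod.fst, (T.filter (fun x => x.1 = a)).card ≤ q := by
    intro a _
    by_contra hcon
    push Not at hcon
    set F := T.filter (fun x => x.1 = a) with hF
    have hinj : Set.InjOn Prod.snd (F : Set (α × β)) := by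
      intro x hx y hy hxy
      rw [mem_coe, hF, mem_filter] at hx hy
      exact Prod.ext (hx.2.trans hy.2.symm) hxy
    have hcard : (F.image Prod.snd).card = F.card := card_image_of_injOn hinj
    refine hG.mono (by omega : q + 1 ≤ (F.image Prod.snd).card) (F.image Prod.snd) ⟨?_, rfl⟩
    rw [SimpleGraph.isClique_iff]
    intro b hb b' hb' hne
    rw [mem_coe, mem_image] at hb hb'
    obtain ⟨x, hx, rfl⟩ := hb
    obtain ⟨y, hy, rfl⟩ := hb'
    rw [hF, mem_filter] at hx hy
    have hxy : x ≠ y := fun h => hne (by rw [h])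
    rcases hT.isClique hx.1 hy.1 hxy with h | ⟨_, h⟩
    · rw [hx.2, hy.2] at h
      exact absurd h (H.loopless.irrefl a)
    · exact h
  have h3 := card_le_mul_card_image T q h2
  rw [hT.card_eq] at h3
  have h4 : q * (T.image Prod.fst).card ≤ q * p := Nat.mul_le_mul_left _ h1
  rw [mul_comm p q] at h3
  omega

theorem lexG_noMono {α β : Type} [DecidableEq α] [DecidableEq β] {H : SimpleGraph α}
    {G : SimpleGraph β} {p q : ℕ} (hH : NoMono H (p + 1)) (hG : NoMono G (q + 1)) :
    NoMono (lexG H G) (p * q + 1) := by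
  refine ⟨lexG_cliqueFree hH.1 hG.1, ?_⟩
  rw [lexG_compl]
  exact lexG_cliqueFree hH.2 hG.2

/-! ### Clique-width -/

/-- image of a relation -/
def push {α β : Type} (f : α → β) (E : α → α → Prop) : β → β → Prop :=
  fun x y => ∃ u v, f u = x ∧ f v = y ∧ E u v

theorem cwBuilt_map {α β : Type} [DecidableEq α] [DecidableEq β] {w : ℕ} (f : α ↪ β)
    (l0 : β → Fin w) {S : Finset α} {E : α → α → Prop} {l : α → Fin w} (h : CwBuilt w S E l) :
    CwBuilt w (S.map f) (push f E) (Function.extend f l l0) := by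
  induction h with
  | vertex v l =>
    have e : push f (fun _ _ : α => False) = (fun _ _ : β => False) := by
      funext x y
      simp [push]
    rw [e, map_singleton]
    exact CwBuilt.vertex _ _
  | union S T E F l hd hS hT ihS ihT =>
    have e : push f (fun x y => E x y ∨ F x y) = (fun x y => push f E x y ∨ push f F x y) := by
      funext x y
      apply propext
      constructor
      · rintro ⟨u, v, h1, h2, h3 | h3⟩
        · exact Or.inl ⟨u, v, h1, h2, h3⟩
        · exact Or.inr ⟨u, v, h1, h2, h3⟩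
      · rintro (⟨u, v, h1, h2, h3⟩ | ⟨u, v, h1, h2, h3⟩)
        · exact ⟨u, v, h1, h2, Or.inl h3⟩
        · exact ⟨u, v, h1, h2, Or.inr h3⟩
    rw [e, map_union]
    exact CwBuilt.union _ _ _ _ _ ((disjoint_map f).2 hd) ihS ihT
  | join S E l i j hij hS ih =>
    have e : push f (fun x y => E x y ∨
        (x ∈ S ∧ y ∈ S ∧ ((l x = i ∧ l y = j) ∨ (l x = j ∧ l y = i)))) =
        (fun x y => push f E x y ∨ (x ∈ S.map f ∧ y ∈ S.map f ∧
          ((Function.extend f l l0 x = i ∧ Function.extend f l l0 y = j) ∨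
            (Function.extend f l l0 x = j ∧ Function.extend f l l0 y = i)))) := by
      funext x y
      apply propext
      constructor
      · rintro ⟨u, v, rfl, rfl, h3 | ⟨h3, h4, h5⟩⟩
        · exact Or.inl ⟨u, v, rfl, rfl, h3⟩
        · refine Or.inr ⟨mem_map_of_mem f h3, mem_map_of_mem f h4, ?_⟩
          rw [f.injective.extend_apply, f.injective.extend_apply]
          exact h5
      · rintro (⟨u, v, h1, h2, h3⟩ | ⟨h1, h2, h3⟩)
        · exact ⟨u, v, h1, h2, Or.inl h3⟩
        · obtain ⟨u, hu, rfl⟩ := mem_map.1 h1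
          obtain ⟨v, hv, rfl⟩ := mem_map.1 h2
          rw [f.injective.extend_apply, f.injective.extend_apply] at h3
          exact ⟨u, v, rfl, rfl, Or.inr ⟨hu, hv, h3⟩⟩
    rw [e]
    exact CwBuilt.join _ _ _ i j hij ih
  | relabel S E l i j hS ih =>
    refine CwBuilt.same _ _ _ _ ?_ (CwBuilt.relabel _ _ _ i j ih)
    intro x hx
    obtain ⟨u, hu, rfl⟩ := mem_map.1 hx
    rw [f.injective.extend_apply, f.injective.extend_apply]
  | same S E l l' hl hS ih =>
    refine CwBuilt.same _ _ _ _ ?_ ih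
    intro x hx
    obtain ⟨u, hu, rfl⟩ := mem_map.1 hx
    rw [f.injective.extend_apply, f.injective.extend_apply]
    exact hl u hu

theorem cwBuilt_relabel_all {V : Type} [DecidableEq V] {w : ℕ} {S : Finset V} {E : V → V → Prop}
    {l : V → Fin w} (h : CwBuilt w S E l) (j : Fin w) : CwBuilt w S E (fun _ => j) := by
  have key : ∀ I : Finset (Fin w), CwBuilt w S E (fun x => if l x ∈ I then j else l x) := by
    intro I
    induction I using Finset.induction_on with
    | empty =>
      refine CwBuilt.same _ _ _ _ ?_ h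
      intro x _; simp
    | insert i I hi ih =>
      refine CwBuilt.same _ _ _ _ ?_ (CwBuilt.relabel _ _ _ i j ih)
      intro x _
      by_cases h1 : l x ∈ I
      · have h2 : l x ∈ insert i I := mem_insert_of_mem h1
        simp only [h1, h2, if_true]
        split_ifs <;> rfl
      · by_cases h3 : l x = i
        · rw [if_neg h1, if_pos h3, if_pos (by rw [h3]; exact mem_insert_self _ _)]
        · have h2 : l x ∉ insert i I := by
            rw [mem_insert]; push Not; exact ⟨h3, h1⟩
          simp [h1, h2, h3]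
  refine CwBuilt.same _ _ _ _ ?_ (key univ)
  intro x _; simp

theorem lexG_cliqueWidth {α β : Type} [Fintype α] [DecidableEq α] [Nonempty α] [Fintype β]
    [DecidableEq β] {H : SimpleGraph α} {G : SimpleGraph β} {w : ℕ}
    (hα : Fintype.card α ≤ w) (hG : CliqueWidthLe G w) : CliqueWidthLe (lexG H G) w := by
  classical
  obtain ⟨E, l, hb, hE⟩ := hG
  obtain ⟨ι⟩ : Nonempty (α ↪ Fin w) := by
    apply Function.Embedding.nonempty_of_card_le
    rwa [Fintype.card_fin]
  -- one copy
  set lab : α × β → Fin w := fun x => ι x.1 with hlab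
  have one : ∀ a : α, CwBuilt w (({a} : Finset α) ×ˢ (univ : Finset β))
      (fun x y => x.1 = a ∧ x.1 = y.1 ∧ G.Adj x.2 y.2) lab := by
    intro a
    set f : β ↪ α × β := ⟨fun b => (a, b), fun b b' h => (Prod.ext_iff.1 h).2⟩ with hf
    have h1 := cwBuilt_relabel_all (cwBuilt_map f lab hb) (ι a)
    have e1 : (univ : Finset β).map f = ({a} : Finset α) ×ˢ (univ : Finset β) := by
      ext x
      rw [mem_map, mem_product, mem_singleton]
      constructor
      · rintro ⟨b, _, rfl⟩; exact ⟨rfl, mem_univ _⟩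
      · rintro ⟨h1, _⟩
        exact ⟨x.2, mem_univ _, Prod.ext h1.symm rfl⟩
    have e2 : push f E = (fun x y => x.1 = a ∧ x.1 = y.1 ∧ G.Adj x.2 y.2) := by
      funext x y
      apply propext
      constructor
      · rintro ⟨u, v, rfl, rfl, h3⟩
        exact ⟨rfl, rfl, (hE u v).1 h3⟩
      · rintro ⟨h1, h2, h3⟩
        exact ⟨x.2, y.2, Prod.ext h1.symm rfl, Prod.ext (h1.symm.trans h2) rfl, (hE _ _).2 h3⟩
    rw [e1, e2] at h1
    refine CwBuilt.same _ _ _ _ ?_ h1
    intro x hx
    rw [mem_product, mem_singleton] at hx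
    rw [hlab]
    show ι a = ι x.1
    rw [hx.1]
  -- all copies
  have all : ∀ D : Finset α, D.Nonempty → CwBuilt w (D ×ˢ (univ : Finset β))
      (fun x y => x.1 ∈ D ∧ x.1 = y.1 ∧ G.Adj x.2 y.2) lab := by
    intro D hD
    induction hD using Finset.Nonempty.cons_induction with
    | singleton a =>
      have e : (fun x y : α × β => x.1 ∈ ({a} : Finset α) ∧ x.1 = y.1 ∧ G.Adj x.2 y.2) =
          (fun x y => x.1 = a ∧ x.1 = y.1 ∧ G.Adj x.2 y.2) := by
        funext x y
        rw [mem_singleton]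
      rw [e]
      exact one a
    | cons a D ha hD ih =>
      have hdis : Disjoint (({a} : Finset α) ×ˢ (univ : Finset β)) (D ×ˢ (univ : Finset β)) := by
        rw [disjoint_left]
        intro x hx hx'
        rw [mem_product, mem_singleton] at hx
        rw [mem_product] at hx'
        exact ha (hx.1 ▸ hx'.1)
      have h1 := CwBuilt.union _ _ _ _ _ hdis (one a) ih
      have e1 : (({a} : Finset α) ×ˢ (univ : Finset β)) ∪ (D ×ˢ (univ : Finset β)) =
          (cons a D ha) ×ˢ (univ : Finset β) := by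
        rw [← union_product, cons_eq_insert, insert_eq]
      have e2 : (fun x y : α × β => (x.1 = a ∧ x.1 = y.1 ∧ G.Adj x.2 y.2) ∨
          (x.1 ∈ D ∧ x.1 = y.1 ∧ G.Adj x.2 y.2)) =
          (fun x y => x.1 ∈ cons a D ha ∧ x.1 = y.1 ∧ G.Adj x.2 y.2) := by
        funext x y
        rw [mem_cons, or_and_right]
      rw [e1, e2] at h1
      exact h1
  -- the joins
  have joins : ∀ J : Finset (α × α), (∀ p ∈ J, H.Adj p.1 p.2) → CwBuilt w univ
      (fun x y => (x.1 = y.1 ∧ G.Adj x.2 y.2) ∨
        ∃ p ∈ J, (x.1 = p.1 ∧ y.1 = p.2) ∨ (x.1 = p.2 ∧ y.1 = p.1)) lab := by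
    intro J
    induction J using Finset.induction_on with
    | empty =>
      intro _
      have h1 := all univ univ_nonempty
      have e : (fun x y : α × β => x.1 ∈ (univ : Finset α) ∧ x.1 = y.1 ∧ G.Adj x.2 y.2) =
          (fun x y => (x.1 = y.1 ∧ G.Adj x.2 y.2) ∨
            ∃ p ∈ (∅ : Finset (α × α)), (x.1 = p.1 ∧ y.1 = p.2) ∨ (x.1 = p.2 ∧ y.1 = p.1)) := by
        funext x y
        simp
      rw [e, univ_product_univ] at h1
      exact h1
    | insert p J hp ih =>
      intro hJ
      have h1 := ih (fun q hq => hJ q (mem_insert_of_mem hq))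
      have hne : ι p.1 ≠ ι p.2 := fun h => (hJ p (mem_insert_self _ _)).ne (ι.injective h)
      have h2 := CwBuilt.join _ _ _ (ι p.1) (ι p.2) hne h1
      have e : (fun x y : α × β => ((x.1 = y.1 ∧ G.Adj x.2 y.2) ∨
            ∃ q ∈ J, (x.1 = q.1 ∧ y.1 = q.2) ∨ (x.1 = q.2 ∧ y.1 = q.1)) ∨
            (x ∈ (univ : Finset (α × β)) ∧ y ∈ (univ : Finset (α × β)) ∧
              ((lab x = ι p.1 ∧ lab y = ι p.2) ∨ (lab x = ι p.2 ∧ lab y = ι p.1)))) =
          (fun x y => (x.1 = y.1 ∧ G.Adj x.2 y.2) ∨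
            ∃ q ∈ insert p J, (x.1 = q.1 ∧ y.1 = q.2) ∨ (x.1 = q.2 ∧ y.1 = q.1)) := by
        funext x y
        apply propext
        constructor
        · rintro ((h | ⟨q, hq, h⟩) | ⟨_, _, h⟩)
          · exact Or.inl h
          · exact Or.inr ⟨q, mem_insert_of_mem hq, h⟩
          · refine Or.inr ⟨p, mem_insert_self _ _, ?_⟩
            rcases h with ⟨h1, h2⟩ | ⟨h1, h2⟩
            · exact Or.inl ⟨ι.injective h1, ι.injective h2⟩
            · exact Or.inr ⟨ι.injective h1, ι.injective h2⟩
        · rintro (h | ⟨q, hq, h⟩)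
          · exact Or.inl (Or.inl h)
          · rcases mem_insert.1 hq with hqp | hqJ
            · subst hqp
              refine Or.inr ⟨mem_univ _, mem_univ _, ?_⟩
              rcases h with ⟨h1, h2⟩ | ⟨h1, h2⟩
              · exact Or.inl ⟨congrArg ι h1, congrArg ι h2⟩
              · exact Or.inr ⟨congrArg ι h1, congrArg ι h2⟩
            · exact Or.inl (Or.inr ⟨q, hqJ, h⟩)
      rw [e] at h2
      exact h2
  refine ⟨_, lab, joins (univ.filter (fun p => H.Adj p.1 p.2))
    (fun p hp => (mem_filter.1 hp).2), ?_⟩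
  intro x y
  rw [lexG_adj]
  constructor
  · rintro (h | ⟨p, hp, h | h⟩)
    · exact Or.inr h
    · left
      rw [h.1, h.2]; exact (mem_filter.1 hp).2
    · left
      rw [h.1, h.2]; exact (mem_filter.1 hp).2.symm
  · rintro (h | h)
    · exact Or.inr ⟨(x.1, y.1), mem_filter.2 ⟨mem_univ _, h⟩, Or.inl ⟨rfl, rfl⟩⟩
    · exact Or.inl h

end Pool.Agent.Helper91_TW
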