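import Mathlib
import Pool.Agent.Helper91_TW.Lex

set_option autoImplicit false

/-!
# Twin-width of lexicographic products
-/

namespace Pool.Agent.Helper91_TW

open Finset

open Classical in
theorem redDegLe_of {V : Type} {G : SimpleGraph V} {t : ℕ} {P : Finset (Finset V)}
    (h : ∀ A ∈ P, ∀ Q ⊆ P, (∀ B ∈ Q, B ≠ A ∧ ¬ Homog G A B) → Q.card ≤ t) : RedDegLe G t P :=
  fun A hA => h A hA _ (filter_subset _ _) (fun _ hB => (mem_filter.1 hB).2)

open Classical in
theorem redDegLe_use {V : Type} {G : SimpleGraph V} {t : ℕ} {P Q : Finset (Finset V)}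
    {A : Finset V} (h : RedDegLe G t P) (hA : A ∈ P) (hQ : Q ⊆ P)
    (hQ' : ∀ B ∈ Q, B ≠ A ∧ ¬ Homog G A B) : Q.card ≤ t :=
  (card_le_card (fun B hB => mem_filter.2 ⟨hQ hB, hQ' B hB⟩)).trans (h A hA)

section basics

variable {V : Type} [Fintype V] [DecidableEq V] {G : SimpleGraph V} {t : ℕ}

theorem contractible_nonempty {P : Finset (Finset V)} (h : Contractible G t P) :
    ∀ A ∈ P, A.Nonempty := by
  induction h with
  | start =>
    intro A hA
    obtain ⟨v, _, rfl⟩ := mem_image.1 hA
    exact singleton_nonempty v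
  | step P A B hP hA hB hAB hred ih =>
    intro D hD
    rcases mem_insert.1 hD with h | h
    · rw [h]
      obtain ⟨x, hx⟩ := ih A hA
      exact ⟨x, mem_union_left _ hx⟩
    · exact ih D (mem_of_mem_erase (mem_of_mem_erase h))

theorem contractible_cover {P : Finset (Finset V)} (h : Contractible G t P) :
    ∀ v, ∃ A ∈ P, v ∈ A := (contract_first (s := 2) le_rfl ∅ h).1

omit [Fintype V] [DecidableEq V] in
theorem homog_singletons (G : SimpleGraph V) (u v : V) : Homog G {u} {v} := by
  by_cases h : G.Adj u v
  · left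
    intro a ha b hb
    rw [mem_singleton] at ha hb
    rw [ha, hb]; exact h
  · right
    intro a ha b hb
    rw [mem_singleton] at ha hb
    rw [ha, hb]; exact h

theorem contractible_red {P : Finset (Finset V)} (h : Contractible G t P) : RedDegLe G t P := by
  induction h with
  | start =>
    refine redDegLe_of (fun A hA Q hQ hQ' => ?_)
    obtain ⟨v, _, rfl⟩ := mem_image.1 hA
    rw [Finset.card_eq_zero.2 ?_]
    · exact Nat.zero_le _
    · rw [eq_empty_iff_forall_notMem]
      intro B hB
      obtain ⟨u, _, rfl⟩ := mem_image.1 (hQ hB)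
      exact (hQ' _ hB).2 (homog_singletons G v u)
  | step P A B hP hA hB hAB hred ih => exact hred

theorem contract_few [Nonempty V] :
    ∀ (n : ℕ) (P : Finset (Finset V)), P.card = n → n ≤ t + 1 → Contractible G t P →
      TwinWidthLe G t := by
  intro n
  induction n using Nat.strong_induction_on with
  | _ n ih =>
  intro P hn hnt hP
  by_cases h1 : P.card ≤ 1
  · obtain ⟨v⟩ := ‹Nonempty V›
    obtain ⟨A, hA, hv⟩ := contractible_cover hP v
    have hPA : P = {A} := by
      apply eq_singleton_iff_unique_mem.2
      exact ⟨hA, fun B hB => card_le_one.1 h1 B hB A hA⟩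
    have hAu : A = univ := by
      apply eq_univ_iff_forall.2
      intro u
      obtain ⟨B, hB, hu⟩ := contractible_cover hP u
      rw [hPA, mem_singleton] at hB
      rw [← hB]; exact hu
    rw [hPA, hAu] at hP
    exact hP
  · push Not at h1
    obtain ⟨A, hA, B, hB, hAB⟩ := one_lt_card.1 h1
    have hcard : (insert (A ∪ B) ((P.erase A).erase B)).card ≤ P.card - 1 := by
      refine (card_insert_le _ _).trans ?_
      rw [card_erase_of_mem (mem_erase.2 ⟨hAB.symm, hB⟩), card_erase_of_mem hA]
      omega
    refine ih _ (by omega) _ rfl (by omega) (Contractible.step P A B hP hA hB hAB ?_)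
    refine redDegLe_of (fun D hD Q hQ hQ' => ?_)
    refine le_trans (card_le_card (t := (insert (A ∪ B) ((P.erase A).erase B)).erase D) ?_) ?_
    · intro E hE
      exact mem_erase.2 ⟨(hQ' E hE).1, hQ hE⟩
    · rw [card_erase_of_mem hD]
      omega

theorem twinWidth_of_card [Nonempty V] (h : Fintype.card V ≤ t + 1) : TwinWidthLe G t := by
  refine contract_few (t := t) _ _ rfl ?_ Contractible.start
  exact card_image_le.trans (by rw [card_univ]; exact h)

end basics

section product

variable {α β : Type} [Fintype α] [DecidableEq α] [Fintype β] [DecidableEq β]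

/-- partition of the product, given by partitions of the fibres -/
def PP (q : α → Finset (Finset β)) : Finset (Finset (α × β)) :=
  univ.biUnion (fun a => (q a).image (fun B => ({a} : Finset α) ×ˢ B))

omit [Fintype β] in
theorem mem_PP {q : α → Finset (Finset β)} {X : Finset (α × β)} :
    X ∈ PP q ↔ ∃ a, ∃ B ∈ q a, ({a} : Finset α) ×ˢ B = X := by
  unfold PP
  simp only [mem_biUnion, mem_univ, true_and, mem_image]

omit [Fintype α] [DecidableEq α] [Fintype β] [DecidableEq β] in
theorem fibre_inj {a a' : α} {B B' : Finset β} (hB : B.Nonempty)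
    (h : ({a} : Finset α) ×ˢ B = ({a'} : Finset α) ×ˢ B') : a = a' ∧ B = B' := by
  obtain ⟨b, hb⟩ := hB
  have h1 : (a, b) ∈ ({a'} : Finset α) ×ˢ B' := by
    rw [← h, mem_product, mem_singleton]; exact ⟨rfl, hb⟩
  rw [mem_product, mem_singleton] at h1
  have ha : a = a' := h1.1
  subst ha
  refine ⟨rfl, ?_⟩
  ext x
  have h2 : (a, x) ∈ ({a} : Finset α) ×ˢ B ↔ (a, x) ∈ ({a} : Finset α) ×ˢ B' := by rw [h]
  simpa using h2

omit [Fintype α] [DecidableEq α] [Fintype β] [DecidableEq β] in
theorem homog_fibre {H : SimpleGraph α} {G : SimpleGraph β} {a : α} {B B' : Finset β}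
    (h : Homog G B B') :
    Homog (lexG H G) (({a} : Finset α) ×ˢ B) (({a} : Finset α) ×ˢ B') := by
  rcases h with h | h
  · left
    intro x hx y hy
    rw [mem_product, mem_singleton] at hx hy
    exact Or.inr ⟨hx.1.trans hy.1.symm, h _ hx.2 _ hy.2⟩
  · right
    intro x hx y hy hadj
    rw [mem_product, mem_singleton] at hx hy
    rcases hadj with hadj | hadj
    · rw [hx.1, hy.1] at hadj
      exact H.loopless.irrefl a hadj
    · exact h _ hx.2 _ hy.2 hadj.2

omit [Fintype α] [DecidableEq α] [Fintype β] [DecidableEq β] in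
theorem homog_fibres {H : SimpleGraph α} {G : SimpleGraph β} {a a' : α} (hne : a ≠ a')
    (B B' : Finset β) :
    Homog (lexG H G) (({a} : Finset α) ×ˢ B) (({a'} : Finset α) ×ˢ B') := by
  by_cases h : H.Adj a a'
  · left
    intro x hx y hy
    rw [mem_product, mem_singleton] at hx hy
    left
    rw [hx.1, hy.1]; exact h
  · right
    intro x hx y hy hadj
    rw [mem_product, mem_singleton] at hx hy
    rcases hadj with hadj | hadj
    · rw [hx.1, hy.1] at hadj
      exact h hadj
    · exact hne (by rw [← hx.1, ← hy.1]; exact hadj.1)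

omit [Fintype β] in
theorem red_PP {H : SimpleGraph α} {G : SimpleGraph β} {t : ℕ} {q : α → Finset (Finset β)}
    (h : ∀ a, RedDegLe G t (q a)) : RedDegLe (lexG H G) t (PP q) := by
  classical
  refine redDegLe_of (fun X hX Q hQ hQ' => ?_)
  obtain ⟨a, B, hB, rfl⟩ := mem_PP.1 hX
  refine le_trans (card_le_card (t := ((q a).filter (fun B' => B' ≠ B ∧ ¬ Homog G B B')).image
    (fun B' => ({a} : Finset α) ×ˢ B')) ?_) (card_image_le.trans ?_)
  · intro Y hY
    obtain ⟨hYne, hYH⟩ := hQ' Y hY
    obtain ⟨a', B', hB', rfl⟩ := mem_PP.1 (hQ hY)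
    have ha : a = a' := by
      by_contra hne
      exact hYH (homog_fibres hne B B')
    subst ha
    refine mem_image.2 ⟨B', mem_filter.2 ⟨hB', ?_, ?_⟩, rfl⟩
    · rintro rfl; exact hYne rfl
    · exact fun hh => hYH (homog_fibre hh)
  · exact redDegLe_use (h a) hB (filter_subset _ _) (fun _ hB' => (mem_filter.1 hB').2)

omit [Fintype β] in
theorem PP_step {q : α → Finset (Finset β)} (hne : ∀ a, ∀ B ∈ q a, B.Nonempty) (a0 : α)
    {A B : Finset β} (hA : A ∈ q a0) (hB : B ∈ q a0) :
    PP (Function.update q a0 (insert (A ∪ B) (((q a0).erase A).erase B))) =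
      insert ((({a0} : Finset α) ×ˢ A) ∪ (({a0} : Finset α) ×ˢ B))
        (((PP q).erase (({a0} : Finset α) ×ˢ A)).erase (({a0} : Finset α) ×ˢ B)) := by
  have hu : (({a0} : Finset α) ×ˢ A) ∪ (({a0} : Finset α) ×ˢ B) = ({a0} : Finset α) ×ˢ (A ∪ B) := by
    rw [product_union]
  rw [hu]
  ext X
  rw [mem_PP, mem_insert, mem_erase, mem_erase, mem_PP]
  constructor
  · rintro ⟨a, D, hD, rfl⟩
    by_cases ha : a = a0
    · subst ha
      rw [Function.update_self, mem_insert, mem_erase, mem_erase] at hD
      rcases hD with h | ⟨h1, h2, h3⟩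
      · left; rw [h]
      · right
        refine ⟨fun h => h1 (fibre_inj (hne _ D h3) h).2, fun h => h2 (fibre_inj (hne _ D h3) h).2,
          a, D, h3, rfl⟩
    · rw [Function.update_of_ne ha] at hD
      right
      exact ⟨fun h => ha (fibre_inj (hne _ D hD) h).1, fun h => ha (fibre_inj (hne _ D hD) h).1,
        a, D, hD, rfl⟩
  · rintro (h | ⟨h1, h2, a, D, hD, rfl⟩)
    · refine ⟨a0, A ∪ B, ?_, h.symm⟩
      rw [Function.update_self]; exact mem_insert_self _ _
    · by_cases ha : a = a0
      · subst ha
        refine ⟨a, D, ?_, rfl⟩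
        rw [Function.update_self]
        refine mem_insert_of_mem (mem_erase.2 ⟨?_, mem_erase.2 ⟨?_, hD⟩⟩)
        · rintro rfl; exact h1 rfl
        · rintro rfl; exact h2 rfl
      · refine ⟨a, D, ?_, rfl⟩
        rw [Function.update_of_ne ha]; exact hD

theorem contract_PP (H : SimpleGraph α) (G : SimpleGraph β) (t : ℕ) :
    ∀ (D : Finset α) (q : α → Finset (Finset β)), (∀ a ∈ D, Contractible G t (q a)) →
      (∀ a, a ∉ D → q a = univ.image (fun b => {b})) → Contractible (lexG H G) t (PP q) := by
  intro D
  induction D using Finset.induction_on with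
  | empty =>
    intro q _ hq
    have e : PP q = univ.image (fun x => {x}) := by
      ext X
      rw [mem_PP, mem_image]
      constructor
      · rintro ⟨a, B, hB, rfl⟩
        rw [hq a (notMem_empty a), mem_image] at hB
        obtain ⟨b, _, rfl⟩ := hB
        exact ⟨(a, b), mem_univ _, by rw [singleton_product_singleton]⟩
      · rintro ⟨x, _, rfl⟩
        refine ⟨x.1, {x.2}, ?_, by rw [singleton_product_singleton]⟩
        rw [hq x.1 (notMem_empty _)]
        exact mem_image.2 ⟨x.2, mem_univ _, rfl⟩
    rw [e]
    exact Contractible.start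
  | insert a0 D ha0 ih =>
    intro q hq1 hq2
    have inner : ∀ Q, Contractible G t Q → Contractible (lexG H G) t (PP (Function.update q a0 Q)) := by
      intro Q hQ
      induction hQ with
      | start =>
        apply ih
        · intro a ha
          rw [Function.update_of_ne (by rintro rfl; exact ha0 ha)]
          exact hq1 a (mem_insert_of_mem ha)
        · intro a ha
          by_cases h : a = a0
          · rw [h, Function.update_self]
          · rw [Function.update_of_ne h]
            exact hq2 a (by rw [mem_insert]; push Not; exact ⟨h, ha⟩)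
      | step Q A B hQ hA hB hAB hred ihQ =>
        set q1 := Function.update q a0 Q with hq1def
        have hall : ∀ a, Contractible G t (q1 a) := by
          intro a
          by_cases h : a = a0
          · rw [hq1def, h, Function.update_self]; exact hQ
          · rw [hq1def, Function.update_of_ne h]
            by_cases h2 : a ∈ D
            · exact hq1 a (mem_insert_of_mem h2)
            · rw [hq2 a (by rw [mem_insert]; push Not; exact ⟨h, h2⟩)]
              exact Contractible.start
        have hqa0 : q1 a0 = Q := by rw [hq1def, Function.update_self]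
        have hupd : Function.update q a0 (insert (A ∪ B) ((Q.erase A).erase B)) =
            Function.update q1 a0 (insert (A ∪ B) (((q1 a0).erase A).erase B)) := by
          rw [hqa0, hq1def, Function.update_idem]
        have hne : ∀ a, ∀ B ∈ q1 a, B.Nonempty := fun a => contractible_nonempty (hall a)
        have hstep := PP_step hne a0 (A := A) (B := B) (by rw [hqa0]; exact hA)
          (by rw [hqa0]; exact hB)
        have hred' : RedDegLe (lexG H G) t
            (PP (Function.update q1 a0 (insert (A ∪ B) (((q1 a0).erase A).erase B)))) := by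
          apply red_PP
          intro a
          by_cases h : a = a0
          · rw [h, Function.update_self, hqa0]; exact hred
          · rw [Function.update_of_ne h]; exact contractible_red (hall a)
        rw [hupd]
        rw [hstep] at hred' ⊢
        refine Contractible.step _ _ _ ihQ ?_ ?_ ?_ hred'
        · exact mem_PP.2 ⟨a0, A, by rw [hqa0]; exact hA, rfl⟩
        · exact mem_PP.2 ⟨a0, B, by rw [hqa0]; exact hB, rfl⟩
        · intro h
          exact hAB (fibre_inj (contractible_nonempty hQ A hA) h).2
    have h1 := inner (q a0) (hq1 a0 (mem_insert_self _ _))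
    rwa [Function.update_eq_self] at h1

theorem lexG_twinWidth [Nonempty α] [Nonempty β] {H : SimpleGraph α} {G : SimpleGraph β} {t : ℕ}
    (hα : Fintype.card α ≤ t + 1) (hG : TwinWidthLe G t) : TwinWidthLe (lexG H G) t := by
  have h1 := contract_PP H G t univ (fun _ => {univ}) (fun _ _ => hG)
    (fun a ha => absurd (mem_univ a) ha)
  refine contract_few _ _ rfl ?_ h1
  refine le_trans ?_ hα
  unfold PP
  refine card_biUnion_le.trans ?_
  simp

end product

/-- the product of `r` graphs with at most `w` vertices -/
theorem lex_exists {m h w : ℕ} (hm : 1 ≤ m) (hmw : m ≤ w) (H : SimpleGraph (Fin m))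
    (hH : NoMono H (h + 1)) {W : Type} [Fintype W] [DecidableEq W] [Nonempty W]
    {G0 : SimpleGraph W} {h0 : ℕ} (hG0 : NoMono G0 (h0 + 1)) (hc : CliqueWidthLe G0 w)
    (ht : TwinWidthLe G0 w) (r : ℕ) :
    ∃ (V : Type) (_ : Fintype V) (_ : DecidableEq V) (_ : Nonempty V) (G : SimpleGraph V),
      Fintype.card V = m ^ r * Fintype.card W ∧ NoMono G (h ^ r * h0 + 1) ∧ CliqueWidthLe G w ∧
        TwinWidthLe G w := by
  have _i : Nonempty (Fin m) := ⟨⟨0, hm⟩⟩
  induction r with
  | zero => exact ⟨W, inferInstance, inferInstance, inferInstance, G0, by simp, by simpa using hG0,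
      hc, ht⟩
  | succ r ih =>
    obtain ⟨V, _, _, _, G, h1, h2, h3, h4⟩ := ih
    refine ⟨Fin m × V, inferInstance, inferInstance, inferInstance, lexG H G, ?_, ?_, ?_, ?_⟩
    · rw [Fintype.card_prod, Fintype.card_fin, h1]; ring
    · have := lexG_noMono hH h2
      have e : h * (h ^ r * h0) + 1 = h ^ (r + 1) * h0 + 1 := by ring
      rw [e] at this
      exact this
    · exact lexG_cliqueWidth (by rw [Fintype.card_fin]; exact hmw) h3
    · exact lexG_twinWidth (by rw [Fintype.card_fin]; omega) h4

theorem unit_cliqueWidth {w : ℕ} (hw : 1 ≤ w) : CliqueWidthLe (⊥ : SimpleGraph Unit) w := by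
  refine ⟨fun _ _ => False, fun _ => ⟨0, hw⟩, ?_, fun x y => by simp⟩
  have := CwBuilt.vertex (w := w) () (fun _ => ⟨0, hw⟩)
  exact this

theorem unit_noMono : NoMono (⊥ : SimpleGraph Unit) (1 + 1) := by
  constructor <;>
  · intro T hT
    have := card_le_univ T
    rw [hT.card_eq] at this
    simp at this

theorem unit_twinWidth (w : ℕ) : TwinWidthLe (⊥ : SimpleGraph Unit) w :=
  twinWidth_of_card (by simp)

end Pool.Agent.Helper91_TW
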