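import Mathlib
import Pool.Agent.Helper91_TW.LexT
import Pool.Agent.H818R2.Ram.Erdos

set_option autoImplicit false

/-!
# Lower bounds
-/

namespace Pool.Agent.Helper91_TW

open Finset Real

theorem exists_of_lt_R {k m : ℕ} (h : m < Pool.Agent.H818R2.Ram.R k k) :
    ∃ H : SimpleGraph (Fin m), NoMono H k := by
  have h1 : m ∉ {n : ℕ | Pool.Agent.H818R2.Ram.Arrows n k k} := Nat.notMem_of_lt_sInf h
  rw [Set.mem_ofPred_eq, Pool.Agent.H818R2.Ram.Arrows] at h1
  push Not at h1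
  obtain ⟨G, h2, h3⟩ := h1
  exact ⟨G, fun s hs => h2 s hs, fun s hs => h3 s hs⟩

theorem base_graph {h m : ℕ} (hh : 3 ≤ h) (hm : m ^ 2 ≤ 2 ^ h) :
    ∃ H : SimpleGraph (Fin m), NoMono H h := by
  apply exists_of_lt_R
  have h1 := Pool.Agent.H818R2.Ram.erdos_lower hh
  exact lt_of_pow_lt_pow_left₀ 2 (Nat.zero_le _) (hm.trans_lt h1)

theorem noMono_mono {V : Type} {G : SimpleGraph V} {a b : ℕ} (hab : a ≤ b) (h : NoMono G a) :
    NoMono G b := ⟨h.1.mono hab, h.2.mono hab⟩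

/-- the small base graph -/
theorem base_two : NoMono (⊥ : SimpleGraph (Fin 2)) (2 + 1) := by
  constructor <;>
  · intro T hT
    have := card_le_univ T
    rw [hT.card_eq, Fintype.card_fin] at this
    omega

theorem power_exists {m h w k r : ℕ} (hm : 1 ≤ m) (hmw : m ≤ w) (H : SimpleGraph (Fin m))
    (hH : NoMono H (h + 1)) (hr : h ^ r + 1 ≤ k) :
    ∃ (V : Type) (_ : Fintype V) (_ : DecidableEq V) (_ : Nonempty V) (G : SimpleGraph V),
      Fintype.card V = m ^ r ∧ NoMono G k ∧ CliqueWidthLe G w ∧ TwinWidthLe G w := by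
  obtain ⟨V, i1, i2, i3, G, h1, h2, h3, h4⟩ := lex_exists hm hmw H hH (W := Unit)
    (G0 := (⊥ : SimpleGraph Unit)) (h0 := 1) unit_noMono (unit_cliqueWidth (hm.trans hmw))
    (unit_twinWidth w) r
  refine ⟨V, i1, i2, i3, G, by rw [h1]; simp, noMono_mono (by simpa using hr) h2, h3, h4⟩

theorem log_lower_aux {k : ℕ} (hk : 3 ≤ k) : log (k : ℝ) ≤ 2 * log ((k : ℝ) - 1) := by
  have hkR : (3 : ℝ) ≤ k := by exact_mod_cast hk
  have h1 : (k : ℝ) ≤ ((k : ℝ) - 1) ^ 2 := by nlinarith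
  calc log (k : ℝ) ≤ log (((k : ℝ) - 1) ^ 2) := log_le_log (by linarith) h1
    _ = 2 * log ((k : ℝ) - 1) := by rw [log_pow]; norm_num

/-- for `r = log_h (k-1)` -/
theorem log_r {h k : ℕ} (hh : 2 ≤ h) (hhk : h ≤ k - 1) (hk : 3 ≤ k) :
    1 ≤ Nat.log h (k - 1) ∧ h ^ (Nat.log h (k - 1)) + 1 ≤ k ∧
      log k ≤ 4 * (Nat.log h (k - 1) * log h) := by
  set r := Nat.log h (k - 1) with hr
  have h1 : 1 ≤ r := Nat.log_pos (by omega) hhk
  have h2 : h ^ r ≤ k - 1 := Nat.pow_log_le_self h (by omega)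
  have h3 : k - 1 < h ^ (r + 1) := Nat.lt_pow_succ_log_self (by omega) _
  refine ⟨h1, by omega, ?_⟩
  have h4 : ((k : ℝ) - 1) ≤ (h : ℝ) ^ (r + 1) := by
    have : k - 1 ≤ h ^ (r + 1) := h3.le
    have h5 : ((k - 1 : ℕ) : ℝ) ≤ (h : ℝ) ^ (r + 1) := by exact_mod_cast this
    rwa [Nat.cast_sub (by omega), Nat.cast_one] at h5
  have hkR : (3 : ℝ) ≤ k := by exact_mod_cast hk
  have h5 : log ((k : ℝ) - 1) ≤ (r + 1) * log h := by
    have := log_le_log (by linarith) h4
    rw [log_pow] at this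
    exact_mod_cast this
  have h6 := log_lower_aux hk
  have hh0 : 0 ≤ log (h : ℝ) := log_nonneg (by exact_mod_cast (by omega : 1 ≤ h))
  have hr1 : (1 : ℝ) ≤ r := by exact_mod_cast h1
  nlinarith

theorem log3_lower : (1.097 : ℝ) < log 3 := by
  have h2 := log_two_gt_d9
  have h3 : (19 : ℝ) * log 2 ≤ 12 * log 3 := by
    rw [show (19 : ℝ) * log 2 = log (2 ^ 19) by rw [log_pow]; norm_num,
      show (12 : ℝ) * log 3 = log (3 ^ 12) by rw [log_pow]; norm_num]
    exact log_le_log (by norm_num) (by norm_num)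
  linarith

/-- Lower bound of the right order of magnitude. -/
theorem lower_main {k w : ℕ} (hk : 3 ≤ k) (hw : 3 ≤ w) (hwk : w ^ 2 ≤ 2 ^ k) :
    ∃ (V : Type) (_ : Fintype V) (_ : DecidableEq V) (_ : Nonempty V) (G : SimpleGraph V),
      NoMono G k ∧ CliqueWidthLe G w ∧ TwinWidthLe G w ∧
        1 / 200 * (log w * log k / log (log w)) ≤ log (Fintype.card V) := by
  have hkR : (3 : ℝ) ≤ k := by exact_mod_cast hk
  have hwR : (3 : ℝ) ≤ w := by exact_mod_cast hw
  have hlk0 : 0 < log (k : ℝ) := log_pos (by linarith)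
  have hl3 := log3_lower
  have hlw : (1.097 : ℝ) < log w := hl3.trans_le (log_le_log (by norm_num) hwR)
  have hllw : (0.088 : ℝ) ≤ log (log w) := by
    have h1 : 1 - (log (w : ℝ))⁻¹ ≤ log (log w) := one_sub_inv_le_log_of_pos (by linarith)
    have h2 : (log (w : ℝ))⁻¹ ≤ (1.097 : ℝ)⁻¹ := inv_anti₀ (by norm_num) hlw.le
    have h3 : (1.097 : ℝ)⁻¹ ≤ 0.912 := by norm_num
    linarith
  have h2a := log_two_gt_d9
  have h2b := log_two_lt_d9
  by_cases hw64 : w < 64
  · obtain ⟨hr1, hr2, hr3⟩ := log_r (h := 2) (k := k) le_rfl (by omega) hk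
    set r := Nat.log 2 (k - 1) with hr
    obtain ⟨V, i1, i2, i3, G, h1, h2, h3, h4⟩ := power_exists (m := 2) (h := 2) (w := w) (k := k)
      (r := r) (by norm_num) (by omega) ⊥ base_two hr2
    refine ⟨V, i1, i2, i3, G, h2, h3, h4, ?_⟩
    rw [h1]
    push_cast
    rw [log_pow]
    have h5 : log (w : ℝ) ≤ 4.16 := by
      have h6 : (w : ℝ) ≤ 64 := by exact_mod_cast hw64.le
      have h7 := log_le_log (by linarith : (0 : ℝ) < w) h6
      rw [show (64 : ℝ) = 2 ^ 6 by norm_num, log_pow] at h7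
      push_cast at h7
      linarith
    have h8 : log (w : ℝ) * log k / log (log w) ≤ 48 * log k := by
      rw [div_le_iff₀ (by linarith)]
      nlinarith
    have hr3' : log (k : ℝ) ≤ 4 * (r * log 2) := by exact_mod_cast hr3
    linarith
  · push Not at hw64
    set h' := Nat.log 2 (w ^ 2) with hh'
    have hw2 : w ^ 2 ≠ 0 := by positivity
    have e1 : 2 ^ h' ≤ w ^ 2 := Nat.pow_log_le_self 2 hw2
    have e2 : w ^ 2 < 2 ^ (h' + 1) := Nat.lt_pow_succ_log_self (by norm_num) _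
    have e3 : 12 ≤ h' := by
      rw [hh']
      apply Nat.le_log_of_pow_le (by norm_num)
      calc 2 ^ 12 = 64 ^ 2 := by norm_num
        _ ≤ w ^ 2 := Nat.pow_le_pow_left hw64 2
    have e4 : h' ≤ k := by
      have := e1.trans hwk
      exact (Nat.pow_le_pow_iff_right (by norm_num)).1 this
    have hm : (w / 2) ^ 2 ≤ 2 ^ h' := by
      have h5 : 2 * (w / 2) ≤ w := Nat.mul_div_le w 2
      have h6 : (2 * (w / 2)) ^ 2 ≤ w ^ 2 := Nat.pow_le_pow_left h5 2
      have h7 : (2 * (w / 2)) ^ 2 = 4 * (w / 2) ^ 2 := by ring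
      have h8 : 2 ^ (h' + 1) = 2 * 2 ^ h' := by ring
      omega
    obtain ⟨H, hH⟩ := base_graph (h := h') (m := w / 2) (by omega) hm
    have hH' : NoMono H ((h' - 1) + 1) := by
      rw [Nat.sub_add_cancel (by omega)]; exact hH
    obtain ⟨hr1, hr2, hr3⟩ := log_r (h := h' - 1) (k := k) (by omega) (by omega) hk
    set r := Nat.log (h' - 1) (k - 1) with hr
    obtain ⟨V, i1, i2, i3, G, h1, h2, h3, h4⟩ := power_exists (m := w / 2) (h := h' - 1) (w := w)
      (k := k) (r := r) (by omega) (by omega) H hH' hr2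
    refine ⟨V, i1, i2, i3, G, h2, h3, h4, ?_⟩
    rw [h1]
    push_cast
    rw [log_pow]
    -- `log (w/2) ≥ (1/2) log w`
    have hm0 : w ≤ (w / 2) ^ 2 := by
      have h5 : 32 ≤ w / 2 := by omega
      have h6 : w ≤ 2 * (w / 2) + 1 := by omega
      nlinarith
    have hm1 : log (w : ℝ) ≤ 2 * log ((w / 2 : ℕ) : ℝ) := by
      have h5 : (w : ℝ) ≤ ((w / 2 : ℕ) : ℝ) ^ 2 := by exact_mod_cast hm0
      have h6 := log_le_log (by linarith : (0 : ℝ) < w) h5
      rw [log_pow] at h6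
      exact_mod_cast h6
    -- `log (h'-1) ≤ 2 log log w`
    have hlw4 : (4.15 : ℝ) ≤ log w := by
      have h6 : (64 : ℝ) ≤ w := by exact_mod_cast hw64
      have h7 := log_le_log (by norm_num) h6
      rw [show (64 : ℝ) = 2 ^ 6 by norm_num, log_pow] at h7
      push_cast at h7
      linarith
    have hh1 : ((h' - 1 : ℕ) : ℝ) ≤ (log w) ^ 2 := by
      have h5 : (h' : ℝ) * log 2 ≤ 2 * log w := by
        have h6 : ((2 : ℝ)) ^ h' ≤ (w : ℝ) ^ 2 := by exact_mod_cast e1
        have h7 := log_le_log (by positivity) h6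
        rw [log_pow, log_pow] at h7
        exact_mod_cast h7
      have h8 : ((h' - 1 : ℕ) : ℝ) = h' - 1 := by
        rw [Nat.cast_sub (by omega)]; norm_num
      rw [h8]
      have h9 : (0 : ℝ) ≤ h' := Nat.cast_nonneg _
      nlinarith
    have hh2 : log ((h' - 1 : ℕ) : ℝ) ≤ 2 * log (log w) := by
      have h5 : (0 : ℝ) < ((h' - 1 : ℕ) : ℝ) := by
        exact_mod_cast (by omega : 0 < h' - 1)
      have h6 := log_le_log h5 hh1
      rw [log_pow] at h6
      exact_mod_cast h6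
    have hll0 : 0 < log (log (w : ℝ)) := by linarith
    -- combine
    have hr0 : (0 : ℝ) ≤ r := Nat.cast_nonneg _
    have h5 : log (k : ℝ) ≤ 8 * (r * log (log w)) := by
      calc log (k : ℝ) ≤ 4 * (r * log ((h' - 1 : ℕ) : ℝ)) := hr3
        _ ≤ 4 * (r * (2 * log (log w))) := by
            apply mul_le_mul_of_nonneg_left _ (by norm_num)
            exact mul_le_mul_of_nonneg_left hh2 hr0
        _ = 8 * (r * log (log w)) := by ring
    have h6 : log (k : ℝ) / log (log w) ≤ 8 * r := by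
      rw [div_le_iff₀ hll0]
      linarith
    have h7 : log (w : ℝ) * log k / log (log w) ≤ 8 * r * log w := by
      rw [mul_div_assoc]
      have := mul_le_mul_of_nonneg_left h6 (by linarith : (0 : ℝ) ≤ log (w : ℝ))
      linarith
    have h8 : (r : ℝ) * log w ≤ 2 * (r * log ((w / 2 : ℕ) : ℝ)) := by
      have := mul_le_mul_of_nonneg_left hm1 hr0
      linarith
    have h9 : 0 ≤ (r : ℝ) * log w := mul_nonneg hr0 (by linarith)
    linarith

end Pool.Agent.Helper91_TW
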