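import Mathlib
import Pool.Agent.Helper91_TW.Lower

set_option autoImplicit false

/-!
# Sharpness of the error term of the first upper bound
-/

namespace Pool.Agent.Helper91_TW

open Finset Real

theorem sharp {k w : ℕ} (hk : 1 ≤ k) (hw : 1 ≤ w) (h1 : √(k : ℝ) ≤ log w)
    (h2 : 32 * log (w : ℝ) ≤ k) :
    ∃ (V : Type) (_ : Fintype V) (_ : DecidableEq V) (_ : Nonempty V) (G : SimpleGraph V),
      NoMono G k ∧ CliqueWidthLe G w ∧ TwinWidthLe G w ∧
        w * exp (k / (16 * log w)) ≤ Fintype.card V := by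
  have hkR : (1 : ℝ) ≤ k := by exact_mod_cast hk
  have hwR : (1 : ℝ) ≤ w := by exact_mod_cast hw
  set L := log (w : ℝ) with hL
  have hsk : (1 : ℝ) ≤ √(k : ℝ) := Real.one_le_sqrt.2 hkR
  have hL1 : 1 ≤ L := hsk.trans h1
  have hkL : (k : ℝ) ≤ L ^ 2 := by
    have := Real.sq_sqrt (by linarith : (0 : ℝ) ≤ (k : ℝ))
    rw [← this]
    exact pow_le_pow_left₀ (sqrt_nonneg _) h1 2
  have hL32 : 32 ≤ L := by nlinarith
  have h2a := log_two_gt_d9
  have h2b := log_two_lt_d9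
  have hwbig : (33 : ℝ) ≤ w := by
    have := log_le_sub_one_of_pos (by linarith : (0 : ℝ) < w)
    linarith
  have hw33 : 33 ≤ w := by exact_mod_cast hwbig
  set a := Nat.log 2 (w ^ 2) with ha
  have hw2 : w ^ 2 ≠ 0 := by positivity
  have e1 : 2 ^ a ≤ w ^ 2 := Nat.pow_log_le_self 2 hw2
  have e2 : w ^ 2 < 2 ^ (a + 1) := Nat.lt_pow_succ_log_self (by norm_num) _
  have e1R : (a : ℝ) * log 2 ≤ 2 * L := by
    have h6 : ((2 : ℝ)) ^ a ≤ (w : ℝ) ^ 2 := by exact_mod_cast e1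
    have h7 := log_le_log (by positivity) h6
    rw [log_pow, log_pow] at h7
    exact_mod_cast h7
  have e2R : 2 * L ≤ (a + 1) * log 2 := by
    have h6 : (w : ℝ) ^ 2 ≤ (2 : ℝ) ^ (a + 1) := by exact_mod_cast e2.le
    have h7 := log_le_log (by positivity) h6
    rw [log_pow, log_pow] at h7
    exact_mod_cast h7
  have haL : 2 * L ≤ a := by nlinarith
  have haL2 : (a : ℝ) ≤ 2.8855 * L := by nlinarith
  have ha64 : 64 ≤ a := by
    have : (64 : ℝ) ≤ a := by linarith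
    exact_mod_cast this
  set b := k / a with hb
  have hba : b * a ≤ k := Nat.div_mul_le_self k a
  have hba2 : k < (b + 1) * a := by
    rw [hb]; exact Nat.lt_mul_of_div_lt (Nat.lt_succ_self _) (by omega)
  have hba2R : (k : ℝ) ≤ (b + 1) * a := by exact_mod_cast hba2.le
  have hbaR : (b : ℝ) * a ≤ k := by exact_mod_cast hba
  have hL0 : 0 < L := by linarith
  have hb0 : (0 : ℝ) ≤ b := Nat.cast_nonneg _
  have hblow : (k : ℝ) / (2.8855 * L) ≤ b + 1 := by
    rw [div_le_iff₀ (by positivity)]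
    calc (k : ℝ) ≤ (b + 1) * a := hba2R
      _ ≤ (b + 1) * (2.8855 * L) := mul_le_mul_of_nonneg_left haL2 (by linarith)
  have hkL2 : 32 ≤ (k : ℝ) / L := by
    rw [le_div_iff₀ hL0]; exact h2
  have hsplit : (k : ℝ) / (2.8855 * L) = (k / L) / 2.8855 := by
    field_simp
  have hb10 : 10 ≤ b := by
    have h3 : (10 : ℝ) < b + 1 := by
      rw [hsplit] at hblow
      have : (32 : ℝ) / 2.8855 ≤ (k / L) / 2.8855 :=
        div_le_div_of_nonneg_right hkL2 (by norm_num)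
      have h4 : (11 : ℝ) < 32 / 2.8855 := by norm_num
      linarith
    have h4 : (10 : ℝ) < ((b + 1 : ℕ) : ℝ) := by push_cast; exact h3
    have h5 : 10 < b + 1 := by exact_mod_cast h4
    omega
  have hbL : (b : ℝ) ≤ L / 2 := by
    have h3 : (b : ℝ) * (2 * L) ≤ L * L := by
      calc (b : ℝ) * (2 * L) ≤ b * a := mul_le_mul_of_nonneg_left haL hb0
        _ ≤ k := hbaR
        _ ≤ L * L := by rw [← pow_two]; exact hkL
    have h4 : ((b : ℝ) * 2) * L ≤ L * L := by linarith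
    have := le_of_mul_le_mul_right h4 hL0
    linarith
  -- the two graphs
  have hm1 : (w / 2) ^ 2 ≤ 2 ^ a := by
    have h5 : 2 * (w / 2) ≤ w := Nat.mul_div_le w 2
    have h6 : (2 * (w / 2)) ^ 2 ≤ w ^ 2 := Nat.pow_le_pow_left h5 2
    have h7 : (2 * (w / 2)) ^ 2 = 4 * (w / 2) ^ 2 := by ring
    have h8 : 2 ^ (a + 1) = 2 * 2 ^ a := by ring
    omega
  obtain ⟨H1, hH1⟩ := base_graph (h := a) (m := w / 2) (by omega) hm1
  have hH1' : NoMono H1 ((a - 1) + 1) := by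
    rw [Nat.sub_add_cancel (by omega)]; exact hH1
  have hm2 : (2 ^ (b / 2)) ^ 2 ≤ 2 ^ b := by
    rw [← pow_mul]
    exact Nat.pow_le_pow_right (by norm_num) (by omega)
  obtain ⟨H2, hH2⟩ := base_graph (h := b) (m := 2 ^ (b / 2)) (by omega) hm2
  have hH2' : NoMono H2 ((b - 1) + 1) := by
    rw [Nat.sub_add_cancel (by omega)]; exact hH2
  have hm2w : 2 ^ (b / 2) ≤ w := by
    have h3 : ((2 : ℝ)) ^ (b / 2) ≤ w := by
      rw [← Real.exp_log (by linarith : (0 : ℝ) < w), ← hL]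
      have h4 : ((b / 2 : ℕ) : ℝ) ≤ b := by exact_mod_cast Nat.div_le_self b 2
      calc ((2 : ℝ)) ^ (b / 2) = exp (((b / 2 : ℕ) : ℝ) * log 2) := by
            rw [← log_pow, exp_log (by positivity)]
        _ ≤ exp L := by
            apply exp_le_exp.2
            nlinarith
    exact_mod_cast h3
  obtain ⟨V2, i1, i2, i3, G2, c1, c2, c3, c4⟩ := lex_exists (m := 2 ^ (b / 2)) (h := b - 1)
    (w := w) (Nat.one_le_two_pow) hm2w H2 hH2' (W := Unit)
    (G0 := (⊥ : SimpleGraph Unit)) (h0 := 1) unit_noMono (unit_cliqueWidth hw)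
    (unit_twinWidth w) 1
  obtain ⟨V, j1, j2, j3, G, d1, d2, d3, d4⟩ := lex_exists (m := w / 2) (h := a - 1)
    (w := w) (by omega) (Nat.div_le_self w 2) H1 hH1' (W := V2) (G0 := G2)
    (h0 := (b - 1) ^ 1 * 1) c2 c3 c4 1
  refine ⟨V, j1, j2, j3, G, noMono_mono ?_ d2, d3, d4, ?_⟩
  · obtain ⟨a', ha'⟩ : ∃ a', a = a' + 1 := ⟨a - 1, by omega⟩
    obtain ⟨b', hb'⟩ : ∃ b', b = b' + 1 := ⟨b - 1, by omega⟩
    rw [ha', hb'] at hba ⊢
    simp only [Nat.add_sub_cancel, pow_one, mul_one]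
    nlinarith
  · rw [d1, c1]
    simp only [pow_one, Fintype.card_unit, mul_one]
    push_cast
    -- `w / 2 ≥ w / 3`
    have h5 : (w : ℝ) / 2.1 ≤ ((w / 2 : ℕ) : ℝ) := by
      rw [div_le_iff₀ (by norm_num)]
      have h6 : w ≤ 2 * (w / 2) + 1 := by omega
      have h7 : (w : ℝ) ≤ 2 * ((w / 2 : ℕ) : ℝ) + 1 := by exact_mod_cast h6
      linarith
    have h6 : exp (k / (16 * L) + 1) ≤ (2 : ℝ) ^ (b / 2) := by
      have h7 : ((2 : ℝ)) ^ (b / 2) = exp (((b / 2 : ℕ) : ℝ) * log 2) := by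
        rw [← log_pow, exp_log (by positivity)]
      rw [h7]
      apply exp_le_exp.2
      have h8 : (b : ℝ) ≤ 2 * ((b / 2 : ℕ) : ℝ) + 1 := by
        have : b ≤ 2 * (b / 2) + 1 := by omega
        exact_mod_cast this
      rw [hsplit] at hblow
      have h9 : (k : ℝ) / (16 * L) = (k / L) / 16 := by field_simp
      rw [h9]
      set z := (k : ℝ) / L with hz
      have h10 : (z / 2.8855 - 2) / 2 ≤ ((b / 2 : ℕ) : ℝ) := by linarith
      have h11 : (z / 2.8855 - 2) / 2 * 0.69 ≤ ((b / 2 : ℕ) : ℝ) * log 2 := by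
        apply mul_le_mul h10 (by linarith) (by norm_num) (Nat.cast_nonneg _)
      have h12 : z / 16 + 1 ≤ (z / 2.8855 - 2) / 2 * 0.69 := by
        have : (z / 2.8855 - 2) / 2 * 0.69 = z * (0.345 / 2.8855) - 0.69 := by ring
        rw [this]
        have h13 : (0.119 : ℝ) ≤ 0.345 / 2.8855 := by norm_num
        nlinarith
      linarith
    have h7 : (2.1 : ℝ) ≤ exp 1 := by
      have := exp_one_gt_d9
      linarith
    calc (w : ℝ) * exp (k / (16 * L)) = (w / 2.1) * (2.1 * exp (k / (16 * L))) := by ring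
      _ ≤ (w / 2.1) * (exp 1 * exp (k / (16 * L))) := by
          apply mul_le_mul_of_nonneg_left _ (by positivity)
          exact mul_le_mul_of_nonneg_right h7 (exp_pos _).le
      _ = (w / 2.1) * exp (k / (16 * L) + 1) := by rw [← exp_add]; ring_nf
      _ ≤ ((w / 2 : ℕ) : ℝ) * 2 ^ (b / 2) := mul_le_mul h5 h6 (exp_pos _).le (Nat.cast_nonneg _)

end Pool.Agent.Helper91_TW
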