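import Mathlib
import Pool.Agent.Helper91_TW.Upper1

set_option autoImplicit false

/-!
# The upper bound for colourings of small symmetric difference: real form
-/

namespace Pool.Agent.Helper91_TW

open Finset Real

theorem upper_symDiff {V : Type} [Fintype V] [DecidableEq V] [Nonempty V] {G : SimpleGraph V}
    {k t : ℕ} (hk : 2 ≤ k) (hG : NoMono G k) (hD : SymDiffLe G t) :
    log (Fintype.card V) ≤ log (t + 1) + 22 * √(k * log k) := by
  have hkR : (2 : ℝ) ≤ k := by exact_mod_cast hk
  have hk0 : (0 : ℝ) < k := by linarith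
  have hlk : 0 < log (k : ℝ) := log_pos (by linarith)
  have hl2 : log 2 ≤ log (k : ℝ) := log_le_log (by norm_num) hkR
  have h2a : (0.6931471803 : ℝ) < log 2 := log_two_gt_d9
  have h2b : log 2 < (0.6931471808 : ℝ) := log_two_lt_d9
  have hlek : log (k : ℝ) ≤ k := by
    have := log_le_sub_one_of_pos hk0
    linarith
  set x : ℝ := √(k / log k) with hx
  set y : ℝ := √(k * log k) with hy
  have hx1 : 1 ≤ x := by
    rw [hx]
    apply Real.one_le_sqrt.2
    rw [le_div_iff₀ hlk]
    linarith
  have hy1 : 1 ≤ y := by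
    rw [hy]
    apply Real.one_le_sqrt.2
    nlinarith
  have hxl : x * log k = y := by
    rw [hx, hy, sqrt_div' _ hlk.le, sqrt_mul hk0.le]
    have h1 : √(log (k : ℝ)) ≠ 0 := (sqrt_pos.2 hlk).ne'
    have h2 : log (k : ℝ) = √(log (k : ℝ)) * √(log (k : ℝ)) := (mul_self_sqrt hlk.le).symm
    field_simp
    rw [← mul_self_sqrt hlk.le]
    ring_nf
    rw [sqrt_sq (sqrt_nonneg _)]
  have hxy : x * y = k := by
    rw [← hxl, ← mul_assoc, hx, mul_self_sqrt (by positivity)]
    field_simp
  set a : ℕ := ⌈x⌉₊ with ha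
  have hax : x ≤ a := Nat.le_ceil x
  have hax2 : (a : ℝ) ≤ 2 * x := by
    have := Nat.ceil_lt_add_one (show 0 ≤ x by linarith)
    linarith
  have ha1 : 1 ≤ a := by
    have : (1 : ℝ) ≤ a := by linarith
    exact_mod_cast this
  set q : ℕ := ⌈y⌉₊ with hq
  have hqy : y ≤ q := Nat.le_ceil y
  have hqy2 : (q : ℝ) ≤ 2 * y := by
    have := Nat.ceil_lt_add_one (show 0 ≤ y by linarith)
    linarith
  have hkaq : k ≤ a * q := by
    have : (k : ℝ) ≤ a * q := by
      rw [← hxy]
      exact mul_le_mul hax hqy (by linarith) (by positivity)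
    exact_mod_cast this
  have hka : 2 ≤ k ^ a := hk.trans (Nat.le_self_pow (by omega) k)
  have hmain := upper_nat (by omega : 1 ≤ k) hG hD hka hkaq
  have hcard : (0 : ℝ) < Fintype.card V := by
    exact_mod_cast Fintype.card_pos
  have hR : (Fintype.card V : ℝ) ≤ 16 ^ (2 * q) * (64 * (t + 1) * (k ^ a) ^ 3) := by
    exact_mod_cast hmain.le
  have ht : (0 : ℝ) < (t : ℝ) + 1 := by positivity
  calc log (Fintype.card V) ≤ log (16 ^ (2 * q) * (64 * (t + 1) * (k ^ a) ^ 3)) :=
        log_le_log hcard hR
    _ = (2 * q : ℕ) * log 16 + (log 64 + log (t + 1) + 3 * (a * log k)) := by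
        rw [log_mul (by positivity) (by positivity), log_mul (by positivity) (by positivity),
          log_mul (by positivity) ht.ne', log_pow, log_pow, log_pow]
        push_cast
        ring
    _ ≤ log (t + 1) + 22 * y := by
        have e16 : log (16 : ℝ) = 4 * log 2 := by
          rw [show (16 : ℝ) = 2 ^ 4 by norm_num, log_pow]; norm_num
        have e64 : log (64 : ℝ) = 6 * log 2 := by
          rw [show (64 : ℝ) = 2 ^ 6 by norm_num, log_pow]; norm_num
        rw [e16, e64]
        push_cast
        have h1 : (a : ℝ) * log k ≤ 2 * y := by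
          calc (a : ℝ) * log k ≤ 2 * x * log k := mul_le_mul_of_nonneg_right hax2 hlk.le
            _ = 2 * y := by rw [mul_assoc, hxl]
        nlinarith

end Pool.Agent.Helper91_TW
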