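import Mathlib
import Pool.Agent.Helper91_TW.Width

set_option autoImplicit false

/-!
# The second upper bound, for graphs with homogeneous pairs of linear size
-/

namespace Pool.Agent.Helper91_TW

open Finset Real

variable {V : Type} [DecidableEq V]

/-- vertex sets of induced cographs -/
inductive Cog (G : SimpleGraph V) : Finset V → Prop
  | one (v : V) : Cog G {v}
  | join (A B : Finset V) : Cog G A → Cog G B → Disjoint A B → Homog G A B → Cog G (A ∪ B)

theorem cog_card {G : SimpleGraph V} {S : Finset V} (h : Cog G S) :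
    ∃ T1 T2 : Finset V, T1 ⊆ S ∧ T2 ⊆ S ∧ G.IsNClique T1.card T1 ∧ Gᶜ.IsNClique T2.card T2 ∧
      S.card ≤ T1.card * T2.card := by
  induction h with
  | one v =>
    refine ⟨{v}, {v}, subset_rfl, subset_rfl, ?_, ?_, by simp⟩ <;> simp [SimpleGraph.isNClique_iff]
  | join A B hA hB hd hH ihA ihB =>
    obtain ⟨a1, a2, hA1, hA2, hAc, hAi, hAcard⟩ := ihA
    obtain ⟨b1, b2, hB1, hB2, hBc, hBi, hBcard⟩ := ihB
    have hcard : (A ∪ B).card = A.card + B.card := card_union_of_disjoint hd
    rcases hH with hH | hH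
    · have hu := clique_union hAc hBc (fun x hx y hy => hH x (hA1 hx) y (hB1 hy))
      have hu' : G.IsNClique (a1 ∪ b1).card (a1 ∪ b1) := by rw [hu.card_eq]; exact hu
      rcases le_total a2.card b2.card with hle | hle
      · refine ⟨a1 ∪ b1, b2, union_subset_union hA1 hB1, hB2.trans subset_union_right, hu', hBi, ?_⟩
        rw [hcard, hu.card_eq]
        nlinarith [Nat.mul_le_mul_left a1.card hle]
      · refine ⟨a1 ∪ b1, a2, union_subset_union hA1 hB1, hA2.trans subset_union_left, hu', hAi, ?_⟩
        rw [hcard, hu.card_eq]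
        nlinarith [Nat.mul_le_mul_left b1.card hle]
    · have hu := clique_union hAi hBi (fun x hx y hy => by
        rw [SimpleGraph.compl_adj]
        refine ⟨?_, hH x (hA2 hx) y (hB2 hy)⟩
        rintro rfl
        exact disjoint_left.1 hd (hA2 hx) (hB2 hy))
      have hu' : Gᶜ.IsNClique (a2 ∪ b2).card (a2 ∪ b2) := by rw [hu.card_eq]; exact hu
      rcases le_total a1.card b1.card with hle | hle
      · refine ⟨b1, a2 ∪ b2, hB1.trans subset_union_right, union_subset_union hA2 hB2, hBc, hu', ?_⟩
        rw [hcard, hu.card_eq]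
        nlinarith [Nat.mul_le_mul_right a2.card hle]
      · refine ⟨a1, a2 ∪ b2, hA1.trans subset_union_left, union_subset_union hA2 hB2, hAc, hu', ?_⟩
        rw [hcard, hu.card_eq]
        nlinarith [Nat.mul_le_mul_right b2.card hle]

theorem cog_exists {G : SimpleGraph V} {W : ℕ} (hW : 1 ≤ W) (hG : LinPairs G W) {β : ℝ}
    (hβ : 0 ≤ β) (hsum : 1 ≤ (1 / (W : ℝ)) ^ β + (1 / (12 : ℝ)) ^ β) :
    ∀ (n : ℕ) (S : Finset V), S.card = n → S.Nonempty →
      ∃ C ⊆ S, Cog G C ∧ ((S.card : ℝ) / W) ^ β ≤ C.card := by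
  intro n
  have hW0 : (0 : ℝ) < W := by exact_mod_cast hW
  induction n using Nat.strong_induction_on with
  | _ n ih =>
  intro S hn hne
  by_cases hlt : S.card < W
  · obtain ⟨v, hv⟩ := hne
    refine ⟨{v}, singleton_subset_iff.2 hv, Cog.one v, ?_⟩
    rw [card_singleton]
    push_cast
    apply rpow_le_one (by positivity) _ hβ
    rw [div_le_one hW0]
    exact_mod_cast hlt.le
  · push Not at hlt
    obtain ⟨A, B, hA, hB, hAB, hAc, hBc, hH⟩ := hG S hlt
    have hSpos : 0 < S.card := card_pos.2 hne
    have hApos : 0 < A.card := by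
      rcases Nat.eq_zero_or_pos A.card with h | h
      · rw [h] at hAc; omega
      · exact h
    have hBpos : 0 < B.card := by omega
    have hABc : A.card + B.card ≤ S.card := by
      rw [← card_union_of_disjoint hAB]
      exact card_le_card (union_subset hA hB)
    obtain ⟨CA, hCA, hcA, hcA'⟩ := ih A.card (by omega) A rfl (card_pos.1 hApos)
    obtain ⟨CB, hCB, hcB, hcB'⟩ := ih B.card (by omega) B rfl (card_pos.1 hBpos)
    have hd : Disjoint CA CB := disjoint_of_subset_left hCA (disjoint_of_subset_right hCB hAB)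
    refine ⟨CA ∪ CB, union_subset (hCA.trans hA) (hCB.trans hB), Cog.join CA CB hcA hcB hd ?_, ?_⟩
    · rcases hH with h | h
      · exact Or.inl (fun a ha b hb => h a (hCA ha) b (hCB hb))
      · exact Or.inr (fun a ha b hb => h a (hCA ha) b (hCB hb))
    · rw [card_union_of_disjoint hd]
      push_cast
      have hSR : (0 : ℝ) < S.card := by exact_mod_cast hSpos
      have hA' : (S.card : ℝ) / W ≤ A.card := by
        rw [div_le_iff₀ hW0]
        have : (S.card : ℝ) ≤ W * A.card := by exact_mod_cast hAc
        linarith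
      have hB' : (S.card : ℝ) / 12 ≤ B.card := by
        rw [div_le_iff₀ (by norm_num)]
        have : (S.card : ℝ) ≤ 12 * B.card := by exact_mod_cast hBc
        linarith
      have h1 : ((S.card : ℝ) / W) ^ β * (1 / (W : ℝ)) ^ β ≤ ((A.card : ℝ) / W) ^ β := by
        rw [← mul_rpow (by positivity) (by positivity)]
        apply rpow_le_rpow (by positivity) _ hβ
        rw [mul_one_div]
        exact div_le_div_of_nonneg_right hA' hW0.le
      have h2 : ((S.card : ℝ) / W) ^ β * (1 / (12 : ℝ)) ^ β ≤ ((B.card : ℝ) / W) ^ β := by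
        rw [← mul_rpow (by positivity) (by positivity)]
        apply rpow_le_rpow (by positivity) _ hβ
        rw [mul_one_div, div_right_comm]
        exact div_le_div_of_nonneg_right hB' hW0.le
      have h0 : 0 ≤ ((S.card : ℝ) / W) ^ β := by positivity
      nlinarith [mul_le_mul_of_nonneg_left hsum h0]

theorem upper_linPairs [Fintype V] [Nonempty V] {G : SimpleGraph V} {k W : ℕ} (hW : 12 ≤ W)
    (hk : 1 ≤ k) (hG : LinPairs G W) (hM : NoMono G k) :
    log (Fintype.card V) ≤ log W + 4 * (log W / log (log W)) * log k := by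
  have hWR : (12 : ℝ) ≤ W := by exact_mod_cast hW
  have hW0 : (0 : ℝ) < W := by linarith
  have hkR : (1 : ℝ) ≤ k := by exact_mod_cast hk
  set L1 := log (W : ℝ) with hL1
  have hlog12a : (2.4 : ℝ) < log 12 := by
    have h2 := log_two_gt_d9
    have h3 : log (12 : ℝ) = log (8 : ℝ) + log (3 / 2 : ℝ) := by
      rw [← log_mul (by norm_num) (by norm_num)]; norm_num
    have h8 : log (8 : ℝ) = 3 * log 2 := by
      rw [show (8 : ℝ) = 2 ^ 3 by norm_num, log_pow]; norm_num
    have h32 : 1 - (3 / 2 : ℝ)⁻¹ ≤ log (3 / 2 : ℝ) := one_sub_inv_le_log_of_pos (by norm_num)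
    norm_num at h32
    linarith
  have hlog12b : log 12 < (2.7 : ℝ) := by
    have h2 := log_two_lt_d9
    have h3 : log (12 : ℝ) = log (8 : ℝ) + log (3 / 2 : ℝ) := by
      rw [← log_mul (by norm_num) (by norm_num)]; norm_num
    have h8 : log (8 : ℝ) = 3 * log 2 := by
      rw [show (8 : ℝ) = 2 ^ 3 by norm_num, log_pow]; norm_num
    have h32 : log (3 / 2 : ℝ) ≤ 3 / 2 - 1 := log_le_sub_one_of_pos (by norm_num)
    linarith
  have hL1a : (2.4 : ℝ) < L1 := hlog12a.trans_le (log_le_log (by norm_num) hWR)
  have hL10 : 0 < L1 := by linarith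
  set L2 := log L1 with hL2
  have hL20 : 0 < L2 := log_pos (by linarith)
  set β := L2 / (2 * L1) with hβ
  have hβ0 : 0 < β := by positivity
  have hsum : 1 ≤ (1 / (W : ℝ)) ^ β + (1 / (12 : ℝ)) ^ β := by
    set u := √L1 with hu
    have hu0 : 0 < u := sqrt_pos.2 hL10
    have huu : u * u = L1 := mul_self_sqrt hL10.le
    have hlogu : L2 = 2 * log u := by
      rw [hL2, ← huu, log_mul hu0.ne' hu0.ne']; ring
    have h1 : (1 / (W : ℝ)) ^ β = 1 / u := by
      rw [rpow_def_of_pos (by positivity), log_div one_ne_zero hW0.ne', log_one, zero_sub]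
      have e : -log (W : ℝ) * β = - log u := by
        rw [← hL1, hβ, hlogu]
        field_simp
      rw [e, exp_neg, exp_log hu0, one_div]
    have h2 : 1 - β * log 12 ≤ (1 / (12 : ℝ)) ^ β := by
      rw [rpow_def_of_pos (by norm_num), log_div one_ne_zero (by norm_num), log_one, zero_sub]
      have := add_one_le_exp (-log (12 : ℝ) * β)
      linarith
    have h3 : β * log 12 ≤ 1 / u := by
      have h4 : log (u / exp 1) ≤ u / exp 1 - 1 := log_le_sub_one_of_pos (by positivity)
      rw [log_div hu0.ne' (exp_pos 1).ne', log_exp] at h4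
      have h5 : log u ≤ u / exp 1 := by linarith
      have he : (2.7 : ℝ) < exp 1 := lt_trans (by norm_num) exp_one_gt_d9
      have h6 : log u * log 12 ≤ u := by
        have hlu : 0 < log u := by
          rw [hlogu] at hL20; linarith
        have h7 : log u * log 12 ≤ log u * exp 1 := by
          apply mul_le_mul_of_nonneg_left _ hlu.le
          linarith
        have h8 : log u * exp 1 ≤ u := by
          rw [le_div_iff₀ (exp_pos 1)] at h5
          exact h5
        linarith
      have h9 : β = log u / (u * u) := by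
        rw [hβ, hlogu, huu]
        field_simp
      rw [h9, div_mul_eq_mul_div, div_le_div_iff₀ (by positivity) hu0]
      nlinarith
    rw [h1]
    linarith
  obtain ⟨C, _, hC, hCc⟩ := cog_exists (by omega : 1 ≤ W) hG hβ0.le hsum
    (univ : Finset V).card univ rfl univ_nonempty
  rw [card_univ] at hCc
  obtain ⟨T1, T2, _, _, h1, h2, h3⟩ := cog_card hC
  have hT1 : T1.card < k := by
    by_contra hcon
    push Not at hcon
    exact hM.1.mono hcon T1 h1
  have hT2 : T2.card < k := by
    by_contra hcon
    push Not at hcon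
    exact hM.2.mono hcon T2 h2
  have hCk : (C.card : ℝ) ≤ (k : ℝ) ^ 2 := by
    have : C.card ≤ k ^ 2 := by
      rw [pow_two]
      exact h3.trans (Nat.mul_le_mul hT1.le hT2.le)
    exact_mod_cast this
  have hn0 : (0 : ℝ) < Fintype.card V := by exact_mod_cast Fintype.card_pos
  have h4 : β * (log (Fintype.card V) - L1) ≤ 2 * log k := by
    have h5 := log_le_log (by positivity) (hCc.trans hCk)
    rw [log_rpow (by positivity), log_pow, log_div hn0.ne' hW0.ne'] at h5
    exact_mod_cast h5
  have h6 : log (Fintype.card V) - L1 ≤ 2 * log k / β := by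
    rw [le_div_iff₀ hβ0]
    linarith
  have h7 : 2 * log k / β = 4 * (L1 / L2) * log k := by
    rw [hβ]
    field_simp
    ring
  linarith

end Pool.Agent.Helper91_TW
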