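import Mathlib
import Pool.Agent.Helper91_TW.Upper1R
import Pool.Agent.Helper91_TW.Upper2
import Pool.Agent.Helper91_TW.Sharp
import Pool.Agent.H818R2.Ram.Basic

set_option autoImplicit false

/-!
# Growth rates
-/

namespace Pool.Agent.Helper91_TW

open Finset Real

/-- The diagonal Ramsey number `R(k,k)`. -/
noncomputable def ramsey (k : ℕ) : ℕ :=
  sInf {n : ℕ | ∀ G : SimpleGraph (Fin n), ¬ NoMono G k}

/-- The largest number of vertices of a colouring without monochromatic `K_k` whose red graph has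
the property `P`. -/
noncomputable def maxOrder (k : ℕ)
    (P : ∀ (V : Type) [Fintype V] [DecidableEq V], SimpleGraph V → Prop) : ℕ :=
  sSup {n : ℕ | ∃ (V : Type) (_ : Fintype V) (_ : DecidableEq V) (G : SimpleGraph V),
    Fintype.card V = n ∧ NoMono G k ∧ P V G}

theorem ramsey_eq (k : ℕ) : ramsey k = Pool.Agent.H818R2.Ram.R k k := by
  unfold ramsey Pool.Agent.H818R2.Ram.R Pool.Agent.H818R2.Ram.Arrows
  congr 1
  ext n
  constructor
  · intro h G
    by_contra hcon
    push Not at hcon
    exact h G ⟨fun s hs => hcon.1 s hs, fun s hs => hcon.2 s hs⟩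
  · intro h G hG
    rcases h G with ⟨s, hs⟩ | ⟨s, hs⟩
    · exact hG.1 s hs
    · exact hG.2 s hs

theorem card_lt_ramsey {V : Type} [Fintype V] [DecidableEq V] {G : SimpleGraph V} {k : ℕ}
    (hG : NoMono G k) : Fintype.card V < ramsey k := by
  rw [ramsey_eq]
  by_contra hcon
  push Not at hcon
  rcases Pool.Agent.H818R2.Ram.arrows_embed (Pool.Agent.H818R2.Ram.arrows_R k k) G univ
    (by rw [card_univ]; exact hcon) with ⟨s, _, hs⟩ | ⟨s, _, hs⟩
  · exact hG.1 s hs
  · exact hG.2 s hs

theorem log_small (ε : ℝ) (hε : 0 < ε) : ∃ K : ℕ, ∀ k : ℕ, K ≤ k → 3 ≤ k ∧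
    2 + 22 * √(k * log k) ≤ ε * k := by
  have h1 := Real.isLittleO_log_id_atTop.bound (show 0 < (ε / 44) ^ 2 by positivity)
  obtain ⟨x0, hx0⟩ := Filter.eventually_atTop.1 h1
  refine ⟨max 3 (max ⌈x0⌉₊ ⌈4 / ε⌉₊), fun k hk => ?_⟩
  have hk3 : 3 ≤ k := (le_max_left _ _).trans hk
  have hkx : x0 ≤ k := (Nat.le_ceil x0).trans (by
    exact_mod_cast ((le_max_left _ _).trans (le_max_right _ _)).trans hk)
  have hk4 : 4 / ε ≤ k := (Nat.le_ceil _).trans (by
    exact_mod_cast ((le_max_right _ _).trans (le_max_right _ _)).trans hk)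
  refine ⟨hk3, ?_⟩
  have hkR : (3 : ℝ) ≤ k := by exact_mod_cast hk3
  have h2 := hx0 k hkx
  rw [id_eq, Real.norm_of_nonneg (log_nonneg (by linarith)), Real.norm_of_nonneg (by linarith)] at h2
  have h3 : √(k * log k) ≤ ε / 44 * k := by
    rw [Real.sqrt_le_left (by positivity)]
    nlinarith
  have h4 : 4 ≤ ε * k := by
    rw [div_le_iff₀ hε] at hk4
    linarith
  nlinarith

theorem growth_aux (P : ℕ → ∀ (V : Type) [Fintype V] [DecidableEq V], SimpleGraph V → Prop)
    (hU : ∀ (V : Type) [Fintype V] [DecidableEq V] [Nonempty V] (G : SimpleGraph V) (k w : ℕ),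
      2 ≤ k → 1 ≤ w → NoMono G k → P w V G →
      log (Fintype.card V) ≤ log w + 2 + 22 * √(k * log k))
    (hL : ∀ (m w k : ℕ) (H : SimpleGraph (Fin m)), 1 ≤ m → m ≤ w → 2 ≤ k → NoMono H k →
      ∃ (V : Type) (_ : Fintype V) (_ : DecidableEq V) (G : SimpleGraph V),
        Fintype.card V = m ∧ NoMono G k ∧ P w V G)
    {ε : ℝ} {k : ℕ} (hk3 : 3 ≤ k) (hk : 2 + 22 * √(k * log k) ≤ ε * k) {w : ℕ} (hw : 1 ≤ w) :
    |log (maxOrder k (P w)) / k - min (log w / k) (log (ramsey k) / k)| ≤ ε := by
  have hkR : (3 : ℝ) ≤ k := by exact_mod_cast hk3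
  have hwR : (1 : ℝ) ≤ w := by exact_mod_cast hw
  have hk0 : (0 : ℝ) < k := by linarith
  set A := {n : ℕ | ∃ (V : Type) (_ : Fintype V) (_ : DecidableEq V) (G : SimpleGraph V),
    Fintype.card V = n ∧ NoMono G k ∧ P w V G} with hA
  have hbdd : BddAbove A := by
    refine ⟨ramsey k, ?_⟩
    rintro n ⟨V, _, _, G, rfl, hG, _⟩
    exact (card_lt_ramsey hG).le
  have hRk : 4 ≤ ramsey k := by
    rw [ramsey_eq]
    have h1 := Pool.Agent.H818R2.Ram.erdos_lower hk3
    have h2 : 2 ^ 3 ≤ 2 ^ k := Nat.pow_le_pow_right (by norm_num) hk3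
    have h3 : 3 ≤ Pool.Agent.H818R2.Ram.R k k := by
      by_contra hcon
      push Not at hcon
      have : (Pool.Agent.H818R2.Ram.R k k) ^ 2 ≤ 2 ^ 2 := Nat.pow_le_pow_left (by omega) 2
      omega
    by_contra hcon
    push Not at hcon
    have h4 : Pool.Agent.H818R2.Ram.R k k = 3 := by omega
    -- `K_4`-type lower bound: the graph on three vertices with one edge
    have h5 := Pool.Agent.H818R2.Ram.arrows_R k k
    rw [h4] at h5
    rcases h5 (SimpleGraph.fromEdgeSet {s(0, 1)}) with ⟨s, hs⟩ | ⟨s, hs⟩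
    · have hc : s.card = k := hs.card_eq
      have hle : s.card ≤ 3 := by
        have := card_le_univ s
        rwa [Fintype.card_fin] at this
      have hs3 : s = univ := by
        apply eq_univ_of_card
        rw [Fintype.card_fin]; omega
      have := hs.isClique (show (0 : Fin 3) ∈ (s : Set (Fin 3)) by rw [hs3]; simp)
        (show (2 : Fin 3) ∈ (s : Set (Fin 3)) by rw [hs3]; simp) (by decide)
      simp at this
    · have hc : s.card = k := hs.card_eq
      have hle : s.card ≤ 3 := by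
        have := card_le_univ s
        rwa [Fintype.card_fin] at this
      have hs3 : s = univ := by
        apply eq_univ_of_card
        rw [Fintype.card_fin]; omega
      have := hs.isClique (show (0 : Fin 3) ∈ (s : Set (Fin 3)) by rw [hs3]; simp)
        (show (1 : Fin 3) ∈ (s : Set (Fin 3)) by rw [hs3]; simp) (by decide)
      simp at this
  -- the lower bound
  set m := min w (ramsey k - 1) with hm
  have hm1 : 1 ≤ m := by rw [hm]; omega
  have hmR : m < Pool.Agent.H818R2.Ram.R k k := by rw [← ramsey_eq, hm]; omega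
  obtain ⟨H, hH⟩ := exists_of_lt_R hmR
  obtain ⟨V, i1, i2, G, c1, c2, c3⟩ := hL m w k H hm1 (min_le_left _ _) (by omega) hH
  have hmA : m ∈ A := ⟨V, i1, i2, G, c1, c2, c3⟩
  have hlow : m ≤ maxOrder k (P w) := le_csSup hbdd hmA
  -- the upper bound
  have hmem : maxOrder k (P w) ∈ A := Nat.sSup_mem ⟨m, hmA⟩ hbdd
  obtain ⟨V', j1, j2, G', d1, d2, d3⟩ := hmem
  have hne : Nonempty V' := by
    rw [← Fintype.card_pos_iff, d1]; omega
  have hup1 := hU V' G' k w (by omega) hw d2 d3
  have hup2 := card_lt_ramsey d2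
  rw [d1] at hup1 hup2
  have hM0 : (1 : ℝ) ≤ maxOrder k (P w) := by
    exact_mod_cast hm1.trans hlow
  have hup3 : log (maxOrder k (P w)) ≤ log (ramsey k) :=
    log_le_log (by linarith) (by exact_mod_cast hup2.le)
  have hRR : (4 : ℝ) ≤ ramsey k := by exact_mod_cast hRk
  have hlowR : min (log (w : ℝ)) (log (ramsey k)) - 1 ≤ log (maxOrder k (P w)) := by
    have h5 : log (m : ℝ) ≤ log (maxOrder k (P w)) :=
      log_le_log (by exact_mod_cast hm1) (by exact_mod_cast hlow)
    rcases le_total w (ramsey k - 1) with h | h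
    · have : m = w := min_eq_left h
      rw [this] at h5
      have := min_le_left (log (w : ℝ)) (log (ramsey k))
      linarith
    · have h6 : m = ramsey k - 1 := min_eq_right h
      rw [h6] at h5
      have h7 : ((ramsey k - 1 : ℕ) : ℝ) = (ramsey k : ℝ) - 1 := by
        rw [Nat.cast_sub (by omega)]; norm_num
      rw [h7] at h5
      have h8 : log (ramsey k : ℝ) - 1 ≤ log ((ramsey k : ℝ) - 1) := by
        have h9 : (ramsey k : ℝ) ≤ 2 * ((ramsey k : ℝ) - 1) := by linarith
        have h10 := log_le_log (by linarith) h9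
        rw [log_mul (by norm_num) (by linarith)] at h10
        have := log_two_lt_d9
        linarith
      have := min_le_right (log (w : ℝ)) (log (ramsey k))
      linarith
  have hε : 2 ≤ ε * k := by
    have := Real.sqrt_nonneg ((k : ℝ) * log k)
    linarith
  have hmin : min (log (w : ℝ) / k) (log (ramsey k) / k) =
      min (log (w : ℝ)) (log (ramsey k)) / k := min_div_div_right hk0.le _ _
  rw [hmin, ← sub_div, abs_div, abs_of_pos hk0, div_le_iff₀ hk0, abs_le]
  constructor
  · linarith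
  · rcases min_choice (log (w : ℝ)) (log (ramsey k)) with h | h
    · rw [h]; linarith
    · rw [h]; linarith

end Pool.Agent.Helper91_TW
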